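import Pool.Agent.R349.GamFam
import Pool.Agent.R349.Ball
import Pool.Agent.R349.Base
import Pool.Agent.H340R2.LW

/-!
# The Lang–Rohrlich conjecture: all `q` outside a very thin set, for the generators given by fixed rational numbers

Let `y_1, …, y_n` be different positive rational numbers. For `q` prime to their denominators let `a_j` be the residue of `y_j`
modulo `q`, that is `0 < a_j < q` and `a_j v_j ≡ u_j` modulo `q` where `y_j = u_j / v_j`. (For example `y_j = j` gives `a_j = j`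
for `q > n`, and `y_j = 1 / 2` gives `a_j = (q + 1) / 2`.) If `q` is large and prime also to the numerators, the numbers
`Γ(a_j / q)` are, up to the reflection formula, `n` different ones of the `φ(q) / 2` generators of the field `F_q` in the
conjecture. We prove that in every interval `[N, N ^ K]` all integers `q` prime to the denominators, with at most `Z` exceptions
(`Z` depends only on the `y_j`, `K`, `d`, `A`, `m`, `g`), are such that the `n + 1` numbers `π` and `Γ(a_j / q)` satisfy no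
polynomial relation of degree at most `d` whose coefficients are integers of the given number field of degree at most `m` with
conjugates at most `q ^ A`; in addition, the `n` numbers `Γ(a_j / q)` satisfy no such relation, not even an approximate one,
whose coefficients are combinations of given complex numbers `ξ_1, …, ξ_g`. So there are only `O(log log X)` exceptional `q`
below `X`.

Proof. With `t = 1 / q` the numbers `Γ(1 + a_j / q)` are the values of one of finitely many systems of functions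
`Γ(1 + x_j + y_j t)`, and the points `t` are close to `0`. A system of such functions is algebraically independent over the
rational functions, since the shift `t ↦ t + L` multiplies them by polynomials which have zeros in different classes modulo `L`.
The determinant method of `Pool.Agent.Y120.local_thmN`, for arbitrary constants, then bounds the number of the exceptional
points.
-/

set_option autoImplicit false

open NumberField MvPolynomial

namespace Pool.Agent.Results.MP_274814_nt.AlmostAllQ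

/-- The integer `a` is the residue of the rational number `y` modulo `q`: `0 < a < q` and `q` divides `a v - u`, where
`y = u / v` in lowest terms. -/
def IsResidue (q : ℕ) (y : ℚ) (a : ℕ) : Prop := 0 < a ∧ a < q ∧ (q : ℤ) ∣ (a : ℤ) * y.den - y.num

/-- The polynomials in `n` variables, of degree at most `d` in each variable, all of whose coefficients are of the form
`∑ ξ_i ι(c_i)`, where the `c_i` are integers of the number field `F` all of whose conjugates have absolute value at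
most `H`. -/
def Admissible {n g : ℕ} (F : Type) [Field F] [NumberField F] (ι : F →+* ℂ) (ξ : Fin g → ℂ) (d : ℕ) (H : ℝ)
    (P : MvPolynomial (Fin n) ℂ) : Prop :=
  (∀ j, P.degreeOf j ≤ d) ∧
    ∀ s, ∃ c : Fin g → 𝓞 F, (∀ i (φ : F →+* ℂ), ‖φ (c i)‖ ≤ H) ∧ P.coeff s = ∑ i, ξ i * ι (c i)

/-- The tuple `a` is good: every admissible polynomial takes at the numbers `Γ(a_j / q)` a value which is at least `q ^ (-B)`
times each of its coefficients, and `π` and the numbers `Γ(a_j / q)` satisfy no relation `Q = 0` with a nonzero polynomial `Q` of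
degree at most `d` in each variable whose coefficients are integers of `F` with conjugates of absolute value at most `q ^ A`. -/
def Good {n g : ℕ} (q : ℕ) (F : Type) [Field F] [NumberField F] (ι : F →+* ℂ) (ξ : Fin g → ℂ) (d : ℕ) (A B : ℝ)
    (a : Fin n → ℕ) : Prop :=
  (∀ P : MvPolynomial (Fin n) ℂ, Admissible F ι ξ d ((q : ℝ) ^ A) P → ∀ s,
    (q : ℝ) ^ (-B) * ‖P.coeff s‖ ≤ ‖aeval (fun j => Complex.Gamma (a j / q)) P‖) ∧
  ∀ Q : MvPolynomial (Option (Fin n)) (𝓞 F), Q ≠ 0 → (∀ x, Q.degreeOf x ≤ d) →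
    (∀ s (φ : F →+* ℂ), ‖φ ((Q.coeff s : 𝓞 F) : F)‖ ≤ (q : ℝ) ^ A) →
    eval₂ (ι.comp (algebraMap (𝓞 F) F)) (fun o => o.elim (Real.pi : ℂ) fun j => Complex.Gamma (a j / q)) Q ≠ 0

open Pool.Agent.R349

/-- nonvanishing of polynomials in `π` over a number field -/
lemma pi_poly {F : Type} [Field F] [NumberField F] (ι : F →+* ℂ) (N : ℕ) (c : Fin N → F) (k₀ : Fin N) (hk : c k₀ ≠ 0) :
    ∑ k : Fin N, (Real.pi : ℂ) ^ (k : ℕ) * ι (c k) ≠ 0 := by
  classical
  let _ : Algebra F ℂ := ι.toAlgebra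
  intro h
  have htr := Pool.Agent.H340R2.LW.transcendental_pi_complex
  apply htr
  have halg : IsAlgebraic F (Real.pi : ℂ) := by
    refine ⟨∑ k : Fin N, Polynomial.monomial (k : ℕ) (c k), ?_, ?_⟩
    · intro h0
      have h1 := congrArg (fun p => Polynomial.coeff p (k₀ : ℕ)) h0
      simp only [Polynomial.finsetSum_coeff, Polynomial.coeff_monomial, Polynomial.coeff_zero] at h1
      have h2 : ∑ k : Fin N, (if (k : ℕ) = (k₀ : ℕ) then c k else 0) = c k₀ := by
        rw [Finset.sum_eq_single k₀]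
        · simp
        · intro b _ hb
          rw [if_neg (fun hh => hb (Fin.ext hh))]
        · intro hh
          exact absurd (Finset.mem_univ _) hh
      rw [h2] at h1
      exact hk h1
    · rw [map_sum, ← h]
      refine Finset.sum_congr rfl fun k _ => ?_
      rw [Polynomial.aeval_monomial, mul_comm]
      rfl
  exact halg.restrictScalars ℚ

/-- the inequality for the constants `ξ` together with the powers of `π` is enough -/
lemma good_of_key {n g : ℕ} (q : ℕ) (hq1 : 1 ≤ q) (F : Type) [Field F] [NumberField F] (ι : F →+* ℂ) (ξ : Fin g → ℂ)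
    (d : ℕ) (A B : ℝ) (a : Fin n → ℕ)
    (key : ∀ P : MvPolynomial (Fin n) ℂ,
      Admissible F ι (Fin.append ξ fun k : Fin (d + 1) => (Real.pi : ℂ) ^ (k : ℕ)) d ((q : ℝ) ^ A) P → ∀ s,
      (q : ℝ) ^ (-B) * ‖P.coeff s‖ ≤ ‖aeval (fun j => Complex.Gamma (a j / q)) P‖) : Good q F ι ξ d A B a := by
  have hqp : (0 : ℝ) < q := by exact_mod_cast hq1
  refine ⟨?_, ?_⟩
  · intro P hP s
    refine key P ⟨hP.1, fun s' => ?_⟩ s
    obtain ⟨c, hc1, hc2⟩ := hP.2 s'
    refine ⟨Fin.append c 0, fun i φ => ?_, ?_⟩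
    · refine Fin.addCases (fun i => ?_) (fun i => ?_) i
      · rw [Fin.append_left]
        exact hc1 i φ
      · rw [Fin.append_right]
        simp only [Pi.zero_apply, map_zero, norm_zero]
        positivity
    · rw [hc2, Fin.sum_univ_add]
      simp [Fin.append_left, Fin.append_right]
  · intro Q hQ0 hQd hQc h0
    have hcoef := spec_coeff (ι.comp (algebraMap (𝓞 F) F)) (Real.pi : ℂ) Q d (hQd none)
    obtain ⟨u0, hu0⟩ := ne_zero_iff.1 hQ0
    have hP : Admissible F ι (Fin.append ξ fun k : Fin (d + 1) => (Real.pi : ℂ) ^ (k : ℕ)) d ((q : ℝ) ^ A)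
        (spec (ι.comp (algebraMap (𝓞 F) F)) (Real.pi : ℂ) Q) := by
      refine ⟨fun j => ?_, fun s => ?_⟩
      · rw [degreeOf_le_iff]
        intro s hs
        rw [mem_support_iff, hcoef] at hs
        obtain ⟨k, -, hk⟩ := Finset.exists_ne_zero_of_sum_ne_zero hs
        have h1 : opt (k : ℕ) s ∈ Q.support := by
          rw [mem_support_iff]
          intro h
          apply hk
          rw [h, map_zero, mul_zero]
        have h2 := (monomial_le_degreeOf (some j) h1).trans (hQd (some j))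
        rwa [show opt (k : ℕ) s (some j) = s j by simp [opt]] at h2
      · refine ⟨Fin.append (fun _ => 0) fun k : Fin (d + 1) => Q.coeff (opt (k : ℕ) s), fun i φ => ?_, ?_⟩
        · refine Fin.addCases (fun i => ?_) (fun i => ?_) i
          · rw [Fin.append_left]
            simp only [map_zero, norm_zero]
            positivity
          · rw [Fin.append_right]
            exact hQc _ φ
        · rw [hcoef]
          refine Eq.symm ((Fin.sum_univ_add _).trans ?_)
          simp only [Fin.append_left, Fin.append_right, map_zero, mul_zero, Finset.sum_const_zero, zero_add]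
          rfl
    have h1 := key _ hP u0.some
    rw [spec_eval, h0, norm_zero, hcoef] at h1
    have h2 : ∑ k : Fin (d + 1), (Real.pi : ℂ) ^ (k : ℕ) *
        ι (((Q.coeff (opt (k : ℕ) u0.some) : 𝓞 F)) : F) ≠ 0 := by
      have h3 : u0 none ≤ d := (monomial_le_degreeOf none (mem_support_iff.2 hu0)).trans (hQd none)
      refine pi_poly ι (d + 1) (fun k => ((Q.coeff (opt (k : ℕ) u0.some) : 𝓞 F) : F))
        ⟨u0 none, Nat.lt_succ_of_le h3⟩ ?_
      simp only
      rw [opt_eta]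
      exact_mod_cast hu0
    have h3 : 0 < (q : ℝ) ^ (-B) := Real.rpow_pos_of_pos hqp _
    have h4 := norm_pos_iff.2 h2
    have h5 := mul_pos h3 h4
    exact absurd h1 (not_le.2 h5)

/-- a small value of an admissible polynomial at the numbers `Γ(a_j / q)` gives one at the numbers `Γ(1 + a_j / q)` -/
lemma transfer {n g : ℕ} (q : ℕ) (hq1' : 1 ≤ q) (F : Type) [Field F] [NumberField F] (ι : F →+* ℂ) (ξ : Fin g → ℂ)
    (d : ℕ) (A A' B T : ℝ) (hAA' : |A| + n * d ≤ A') (hqT : (q : ℝ) ≤ T) (a : Fin n → ℕ)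
    (ha : ∀ j, 1 ≤ a j ∧ a j < q) (P : MvPolynomial (Fin n) ℂ) (hP : Admissible F ι ξ d ((q : ℝ) ^ A) P) (s : Fin n →₀ ℕ)
    (hlt : ‖aeval (fun j => Complex.Gamma (a j / q)) P‖ < (q : ℝ) ^ (-(B + n * d)) * ‖P.coeff s‖) :
    ∃ R : MvPolynomial (Fin n) ℂ, (∀ x, R.degreeOf x ≤ d) ∧
      (∀ s, ∃ c : Fin g → 𝓞 F, (∀ i (φ : F →+* ℂ), ‖φ (c i : F)‖ ≤ T ^ A') ∧ R.coeff s = ∑ i, ξ i * ι (c i : F)) ∧
      ∃ s₀, R.coeff s₀ ≠ 0 ∧
        ‖aeval (fun j => Complex.Gamma (1 + (a j : ℂ) / q)) R‖ ≤ (q : ℝ) ^ (-B) * ‖R.coeff s₀‖ := by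
  classical
  have hq1 : (1 : ℝ) ≤ q := by exact_mod_cast hq1'
  have hqp : (0 : ℝ) < q := by linarith
  have hT1 : 1 ≤ T := hq1.trans hqT
  have haq : ∀ j, a j ≤ q := fun j => (ha j).2.le
  have ha1 : ∀ j, 1 ≤ a j := fun j => (ha j).1
  have hgam : ∀ j, Complex.Gamma (1 + (a j : ℂ) / q) = (a j : ℂ) / q * Complex.Gamma (a j / q) := by
    intro j
    rw [add_comm, Complex.Gamma_add_one]
    have h1 : (a j : ℂ) ≠ 0 := by
      have := ha1 j
      exact_mod_cast (by omega : a j ≠ 0)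
    have h2 : (q : ℂ) ≠ 0 := by exact_mod_cast (by omega : q ≠ 0)
    exact div_ne_zero h1 h2
  have h0 : P.coeff s ≠ 0 := by
    intro h0
    rw [h0, norm_zero, mul_zero] at hlt
    exact absurd hlt (not_lt.2 (norm_nonneg _))
  obtain ⟨hPd, hPc⟩ := hP
  refine ⟨sc d q a P, sc_degreeOf d q a P hPd, ?_, s, ?_, ?_⟩
  · intro s
    rw [sc_coeff]
    by_cases hs : s ∈ P.support
    · obtain ⟨c, hc1, hc2⟩ := hPc s
      refine ⟨fun i => c i * ((fac d q a s : ℕ) : 𝓞 F), fun i φ => ?_, ?_⟩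
      · have e1 : ((c i * ((fac d q a s : ℕ) : 𝓞 F) : 𝓞 F) : F) = (c i : F) * ((fac d q a s : ℕ) : F) := by
          push_cast
          rfl
        rw [e1, map_mul, map_natCast, norm_mul, Complex.norm_natCast]
        have h2 : ((fac d q a s : ℕ) : ℝ) ≤ (q : ℝ) ^ (n * d) := by
          exact_mod_cast fac_le d q a haq s (le_of_mem P hPd hs)
        have hA0 : 0 ≤ |A| + n * d := by positivity
        calc ‖φ (c i)‖ * ((fac d q a s : ℕ) : ℝ) ≤ (q : ℝ) ^ A * (q : ℝ) ^ (n * d) :=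
              mul_le_mul (hc1 i φ) h2 (Nat.cast_nonneg _) (by positivity)
          _ = (q : ℝ) ^ (A + n * d) := by
              rw [Real.rpow_add hqp, ← Real.rpow_natCast]
              push_cast
              rfl
          _ ≤ (q : ℝ) ^ (|A| + n * d) := Real.rpow_le_rpow_of_exponent_le hq1 (by linarith [le_abs_self A])
          _ ≤ T ^ (|A| + n * d) := Real.rpow_le_rpow hqp.le hqT hA0
          _ ≤ T ^ A' := Real.rpow_le_rpow_of_exponent_le hT1 hAA'
      · rw [hc2, Finset.sum_mul]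
        refine Finset.sum_congr rfl fun i _ => ?_
        have e1 : ((c i * ((fac d q a s : ℕ) : 𝓞 F) : 𝓞 F) : F) = (c i : F) * ((fac d q a s : ℕ) : F) := by
          push_cast
          rfl
        rw [e1, map_mul, map_natCast]
        ring
    · refine ⟨fun _ => 0, fun i φ => ?_, ?_⟩
      · simp only [map_zero, norm_zero]
        positivity
      · rw [notMem_support_iff.1 hs, zero_mul]
        simp
  · rw [sc_coeff]
    refine mul_ne_zero h0 ?_
    have := fac_pos d q a ha1 hq1' s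
    exact_mod_cast (by omega : fac d q a s ≠ 0)
  · simp only [hgam]
    rw [sc_eval d q hq1' a P hPd, sc_coeff, norm_mul, norm_mul, Complex.norm_natCast]
    have h1 : ‖∏ j, (a j : ℂ) ^ d‖ ≤ (q : ℝ) ^ (n * d) := by
      rw [norm_prod]
      calc ∏ j, ‖(a j : ℂ) ^ d‖ ≤ ∏ _j : Fin n, (q : ℝ) ^ d := by
            refine Finset.prod_le_prod (fun _ _ => norm_nonneg _) fun j _ => ?_
            rw [norm_pow, Complex.norm_natCast]
            exact pow_le_pow_left₀ (Nat.cast_nonneg _) (by exact_mod_cast haq j) _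
        _ = (q : ℝ) ^ (n * d) := by
            rw [Finset.prod_const, Finset.card_univ, Fintype.card_fin, ← pow_mul, mul_comm]
    have h2 : (1 : ℝ) ≤ ((fac d q a s : ℕ) : ℝ) := by exact_mod_cast fac_pos d q a ha1 hq1' s
    calc ‖∏ j, (a j : ℂ) ^ d‖ * ‖aeval (fun j => Complex.Gamma (a j / q)) P‖
        ≤ (q : ℝ) ^ (n * d) * ((q : ℝ) ^ (-(B + n * d)) * ‖P.coeff s‖) :=
          mul_le_mul h1 hlt.le (norm_nonneg _) (by positivity)
      _ = (q : ℝ) ^ (-B) * ‖P.coeff s‖ := by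
          rw [← mul_assoc]
          congr 1
          rw [← Real.rpow_natCast, ← Real.rpow_add hqp]
          congr 1
          push_cast
          ring
      _ ≤ (q : ℝ) ^ (-B) * (‖P.coeff s‖ * ((fac d q a s : ℕ) : ℝ)) := by
          refine mul_le_mul_of_nonneg_left ?_ (by positivity)
          exact le_mul_of_one_le_right (norm_nonneg _) h2

/-- the data of the residues -/
lemma data {n : ℕ} (y : Fin n → ℚ) (hpos : ∀ j, 0 < y j) (q : ℕ) (hq : ∀ j, (y j).num.natAbs < q)
    (hcop : ∀ j, Nat.Coprime q (y j).den) (a : Fin n → ℕ) (ha : ∀ j, IsResidue q (y j) (a j)) :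
    ∃ c : Fin n → ℤ, (∀ j, 0 ≤ c j ∧ c j < (y j).den) ∧ (∃ s : ℤ, ∀ j, ((y j).den : ℤ) ∣ c j + (y j).num.natAbs * s) ∧
      ∀ j, (a j : ℤ) * (y j).den = (y j).num.natAbs + c j * q := by
  have hnum : ∀ j, (((y j).num.natAbs : ℕ) : ℤ) = (y j).num := fun j => by
    rw [Int.natCast_natAbs]
    exact abs_of_pos (Rat.num_pos.2 (hpos j))
  have h1 : ∀ j, ∃ c : ℤ, (a j : ℤ) * (y j).den = (y j).num.natAbs + c * q := by
    intro j
    obtain ⟨-, -, c, hc⟩ := ha j
    exact ⟨c, by rw [hnum]; linarith⟩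
  choose c hc using h1
  refine ⟨c, fun j => ?_, ?_, hc⟩
  · have h2 := hc j
    have h3 := hq j
    obtain ⟨h4, h5, -⟩ := ha j
    have h6 := (y j).den_pos
    have hq0 : (0 : ℤ) < q := by omega
    constructor
    · by_contra hneg
      have h7 : c j ≤ -1 := by omega
      have h8 : c j * q ≤ -1 * q := mul_le_mul_of_nonneg_right h7 hq0.le
      have h9 : (0 : ℤ) < (a j : ℤ) * (y j).den := by positivity
      omega
    · by_contra hge
      have h7 : ((y j).den : ℤ) ≤ c j := by omega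
      have h8 : ((y j).den : ℤ) * q ≤ c j * q := mul_le_mul_of_nonneg_right h7 hq0.le
      have h9 : (a j : ℤ) * (y j).den < q * (y j).den :=
        mul_lt_mul_of_pos_right (by exact_mod_cast h5) (by exact_mod_cast h6)
      have h10 : (0 : ℤ) ≤ ((y j).num.natAbs : ℕ) := by positivity
      nlinarith
  · have h2 : Nat.Coprime q (∏ j, (y j).den) := Nat.Coprime.prod_right fun j _ => hcop j
    obtain ⟨u, v, huv⟩ := Nat.isCoprime_iff_coprime.2 h2
    refine ⟨u, fun j => ?_⟩
    have h3 : ((y j).den : ℤ) ∣ ((∏ j, (y j).den : ℕ) : ℤ) := by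
      exact_mod_cast Finset.dvd_prod_of_mem (fun j => (y j).den) (Finset.mem_univ j)
    have h4 : c j + (y j).num.natAbs * u = c j * (v * ((∏ j, (y j).den : ℕ) : ℤ)) + u * ((a j : ℤ) * (y j).den) := by
      rw [hc j]
      linear_combination (-(c j : ℤ)) * huv
    rw [h4]
    exact dvd_add ((h3.mul_left v).mul_left _) ((Dvd.intro_left _ rfl).mul_left u)

theorem result (n m g d : ℕ) (A K : ℝ) (y : Fin n → ℚ) (hy : Function.Injective y) (hpos : ∀ j, 0 < y j) :
    ∃ (B : ℝ) (Z : ℕ), ∀ (F : Type) [Field F] [NumberField F], Module.finrank ℚ F ≤ m →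
      ∀ (ι : F →+* ℂ) (ξ : Fin g → ℂ) (N : ℝ), 1 ≤ N →
        {q : ℕ | N ≤ q ∧ (q : ℝ) ≤ N ^ K ∧ (∀ j, Nat.Coprime q (y j).den) ∧
          ∃ a : Fin n → ℕ, (∀ j, IsResidue q (y j) (a j)) ∧ ¬ Good q F ι ξ d A B a}.ncard ≤ Z := by
  classical
  set b : Fin n → ℕ := fun j => (y j).num.natAbs with hb
  set D : Fin n → ℕ := fun j => (y j).den with hD
  have hD0 : ∀ j, 0 < D j := fun j => (y j).den_pos
  have hb0 : ∀ j, 0 < b j := fun j => Int.natAbs_pos.2 (Rat.num_pos.2 (hpos j)).ne'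
  have hyb : ∀ j, y j = (b j : ℚ) / D j := by
    intro j
    have h1 : ((b j : ℕ) : ℚ) = ((y j).num : ℚ) := by
      have h2 : ((b j : ℕ) : ℤ) = (y j).num := by
        simp only [hb]
        rw [Int.natCast_natAbs]
        exact abs_of_pos (Rat.num_pos.2 (hpos j))
      exact_mod_cast congrArg (fun z : ℤ => (z : ℚ)) h2
    rw [h1]
    exact (Rat.num_div_den (y j)).symm
  have hinj : ∀ i j, i ≠ j → b i * D j ≠ b j * D i := by
    intro i j hij h
    apply hij
    apply hy
    rw [hyb i, hyb j, div_eq_div_iff]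
    · exact_mod_cast h
    · exact_mod_cast (hD0 i).ne'
    · exact_mod_cast (hD0 j).ne'
  set K' : ℝ := max K 1 with hK'
  have hK1 : 1 ≤ K' := le_max_right _ _
  have hKp : 0 < K' := by linarith
  set A' : ℝ := |A| + n * d with hA'
  -- the local theorem for each system
  have hloc : ∀ c : Fin n → ℤ, ∃ (B : ℝ) (C : ℕ) (T₀ : ℝ), (∀ j, 0 ≤ c j) → (∃ s : ℤ, ∀ j, (D j : ℤ) ∣ c j + b j * s) →
      2 ≤ T₀ ∧ ∀ (F : Type) [Field F] [NumberField F], Module.finrank ℚ F ≤ m →
      ∀ (ι : F →+* ℂ) (ξ : Fin (g + (d + 1)) → ℂ) (T : ℝ), T₀ ≤ T → ∀ Y : Finset F,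
        (∀ x ∈ Y, ‖ι x‖ ≤ T ^ (-(1 / K')) ∧ Y120.HtLe F T x ∧ ∃ P : MvPolynomial (Fin n) ℂ, (∀ x, P.degreeOf x ≤ d) ∧
          (∀ s, ∃ c : Fin (g + (d + 1)) → 𝓞 F, (∀ i (φ : F →+* ℂ), ‖φ (c i : F)‖ ≤ T ^ A') ∧
            P.coeff s = ∑ i, ξ i * ι (c i : F)) ∧
          ∃ s₀, P.coeff s₀ ≠ 0 ∧
            ‖MvPolynomial.aeval (fun i => gf b D c i (ι x)) P‖ ≤ T ^ (-B) * ‖P.coeff s₀‖) →
        Y.card ≤ C := by
    intro c
    by_cases h : (∀ j, 0 ≤ c j) ∧ ∃ s : ℤ, ∀ j, (D j : ℤ) ∣ c j + b j * s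
    · obtain ⟨hc, s, hs⟩ := h
      obtain ⟨B, C, T₀, hT₀, H⟩ := ballNF m (g + (d + 1)) d (gf b D c) (fun j => gf_an hD0 hc j 0 (zero_mem_Om hD0))
        (gf_locInd hD0 hb0 hc hinj s hs) A' (1 / K') (by positivity)
      exact ⟨B, C, T₀, fun _ _ => ⟨hT₀, H⟩⟩
    · exact ⟨0, 0, 0, fun h1 h2 => absurd ⟨h1, h2⟩ h⟩
  choose B C T₀ H using hloc
  set 𝒞 : Finset (Fin n → ℤ) := Fintype.piFinset fun j => Finset.Ico (0 : ℤ) (D j) with h𝒞
  set Bm : ℝ := ∑ c ∈ 𝒞, |B c| with hBm
  have hBm0 : 0 ≤ Bm := Finset.sum_nonneg fun c _ => abs_nonneg _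
  set Tm : ℝ := ∑ c ∈ 𝒞, |T₀ c| + ∑ j, (b j : ℝ) + 2 with hTm
  refine ⟨K' * Bm + n * d, ∑ c ∈ 𝒞, C c + (⌊Tm ^ K'⌋₊ + 1), ?_⟩
  intro F _ _ hF ι ξ N hN
  set ξ' : Fin (g + (d + 1)) → ℂ := Fin.append ξ fun k : Fin (d + 1) => (Real.pi : ℂ) ^ (k : ℕ) with hξ'
  set E : Set ℕ := {q : ℕ | N ≤ q ∧ (q : ℝ) ≤ N ^ K ∧ (∀ j, Nat.Coprime q (y j).den) ∧
          ∃ a : Fin n → ℕ, (∀ j, IsResidue q (y j) (a j)) ∧ ¬ Good q F ι ξ d A (K' * Bm + n * d) a} with hE
  have hNp : 0 < N := by linarith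
  have hNK : N ^ K ≤ N ^ K' := Real.rpow_le_rpow_of_exponent_le hN (le_max_left _ _)
  have hTm0 : 0 ≤ ∑ c ∈ 𝒞, |T₀ c| := Finset.sum_nonneg fun c _ => abs_nonneg _
  have hbs0 : 0 ≤ ∑ j, (b j : ℝ) := Finset.sum_nonneg fun j _ => Nat.cast_nonneg _
  have hEsub : E ⊆ (Finset.range (⌊N ^ K'⌋₊ + 1) : Finset ℕ) := by
    intro q hq
    rw [Finset.mem_coe, Finset.mem_range]
    exact Nat.lt_succ_of_le (Nat.le_floor (hq.2.1.trans hNK))
  have hEf : E.Finite := (Finset.finite_toSet _).subset hEsub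
  rcases lt_or_ge N Tm with hsmall | hbig
  · have h1 : E.ncard ≤ ⌊Tm ^ K'⌋₊ + 1 := by
      have h2 := Set.ncard_le_ncard hEsub (Finset.finite_toSet _)
      rw [Set.ncard_coe_finset, Finset.card_range] at h2
      refine h2.trans (Nat.succ_le_succ (Nat.floor_le_floor ?_))
      exact Real.rpow_le_rpow hNp.le hsmall.le hKp.le
    omega
  -- the main case
  set T : ℝ := N ^ K' with hT
  have hNT : N ≤ T := by
    calc N = N ^ (1 : ℝ) := (Real.rpow_one N).symm
      _ ≤ N ^ K' := Real.rpow_le_rpow_of_exponent_le hN hK1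
  have hT1 : 1 ≤ T := hN.trans hNT
  have hTp : 0 < T := by linarith
  have hTη : T ^ (-(1 / K')) = N⁻¹ := by
    rw [hT, ← Real.rpow_mul hNp.le]
    have : K' * -(1 / K') = -1 := by field_simp
    rw [this, Real.rpow_neg_one]
  have hcov : hEf.toFinset ⊆ 𝒞.biUnion fun c => hEf.toFinset.filter fun q => (∀ j, 0 ≤ c j) ∧
      (∃ s : ℤ, ∀ j, (D j : ℤ) ∣ c j + b j * s) ∧ ∃ a : Fin n → ℕ, (∀ j, IsResidue q (y j) (a j)) ∧
        ¬ Good q F ι ξ d A (K' * Bm + n * d) a ∧ ∀ j, (a j : ℤ) * D j = b j + c j * q := by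
    intro q hq
    obtain ⟨h1, h2, h3, a, ha, hab⟩ := hEf.mem_toFinset.1 hq
    obtain ⟨c, hc1, hc2, hc3⟩ := data y hpos q (by
      intro j
      have h4 : (b j : ℝ) ≤ ∑ j, (b j : ℝ) := Finset.single_le_sum (f := fun j => (b j : ℝ))
        (fun j _ => Nat.cast_nonneg _) (Finset.mem_univ j)
      have h5 : (b j : ℝ) < q := by linarith
      exact_mod_cast h5) h3 a ha
    rw [Finset.mem_biUnion]
    refine ⟨c, ?_, ?_⟩
    · rw [h𝒞, Fintype.mem_piFinset]
      intro j
      rw [Finset.mem_Ico]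
      exact hc1 j
    · rw [Finset.mem_filter]
      exact ⟨hq, fun j => (hc1 j).1, hc2, a, ha, hab, hc3⟩
  have hone : ∀ c ∈ 𝒞, (hEf.toFinset.filter fun q => (∀ j, 0 ≤ c j) ∧
      (∃ s : ℤ, ∀ j, (D j : ℤ) ∣ c j + b j * s) ∧ ∃ a : Fin n → ℕ, (∀ j, IsResidue q (y j) (a j)) ∧
        ¬ Good q F ι ξ d A (K' * Bm + n * d) a ∧ ∀ j, (a j : ℤ) * D j = b j + c j * q).card ≤ C c := by
    intro c hc𝒞
    by_cases hc : (∀ j, 0 ≤ c j) ∧ ∃ s : ℤ, ∀ j, (D j : ℤ) ∣ c j + b j * s
    swap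
    · have h1 : (hEf.toFinset.filter fun q => (∀ j, 0 ≤ c j) ∧
        (∃ s : ℤ, ∀ j, (D j : ℤ) ∣ c j + b j * s) ∧ ∃ a : Fin n → ℕ, (∀ j, IsResidue q (y j) (a j)) ∧
        ¬ Good q F ι ξ d A (K' * Bm + n * d) a ∧ ∀ j, (a j : ℤ) * D j = b j + c j * q) = ∅ := by
        rw [Finset.eq_empty_iff_forall_notMem]
        intro q hq
        rw [Finset.mem_filter] at hq
        exact hc ⟨hq.2.1, hq.2.2.1⟩
      rw [h1, Finset.card_empty]
      exact Nat.zero_le _
    obtain ⟨hT₀, Hc⟩ := H c hc.1 hc.2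
    have hTT : T₀ c ≤ T := by
      have h1 : |T₀ c| ≤ ∑ c ∈ 𝒞, |T₀ c| := Finset.single_le_sum (f := fun c => |T₀ c|) (fun _ _ => abs_nonneg _) hc𝒞
      have h2 := le_abs_self (T₀ c)
      linarith
    have hBB : B c ≤ Bm :=
      (le_abs_self _).trans (Finset.single_le_sum (f := fun c => |B c|) (fun _ _ => abs_nonneg _) hc𝒞)
    have hinjq : Set.InjOn (fun q : ℕ => ((q : F))⁻¹) (hEf.toFinset.filter fun q => (∀ j, 0 ≤ c j) ∧
      (∃ s : ℤ, ∀ j, (D j : ℤ) ∣ c j + b j * s) ∧ ∃ a : Fin n → ℕ, (∀ j, IsResidue q (y j) (a j)) ∧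
        ¬ Good q F ι ξ d A (K' * Bm + n * d) a ∧ ∀ j, (a j : ℤ) * D j = b j + c j * q) := by
      intro q _ q' _ hqq
      have := inv_injective hqq
      exact_mod_cast this
    rw [← Finset.card_image_of_injOn hinjq]
    refine Hc F hF ι ξ' T hTT _ ?_
    intro x hx
    obtain ⟨q, hq, rfl⟩ := Finset.mem_image.1 hx
    rw [Finset.mem_filter] at hq
    obtain ⟨hqE, -, -, a, ha, hab, hac⟩ := hq
    obtain ⟨h1, h2, h3, -⟩ := hEf.mem_toFinset.1 hqE
    have hq1 : (1 : ℝ) ≤ q := hN.trans h1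
    have hq1' : 1 ≤ q := by exact_mod_cast hq1
    have hqp : (0 : ℝ) < q := by linarith
    have hqT : (q : ℝ) ≤ T := h2.trans hNK
    have hιq : ι ((q : F))⁻¹ = ((q : ℂ))⁻¹ := by rw [map_inv₀, map_natCast]
    refine ⟨?_, ?_, ?_⟩
    · change ‖ι ((q : F))⁻¹‖ ≤ _
      rw [hιq, norm_inv, Complex.norm_natCast, hTη]
      exact inv_anti₀ hNp h1
    · refine ⟨1, ((q : ℕ) : 𝓞 F), ?_, ?_, ?_, ?_⟩
      · have : q ≠ 0 := by omega
        exact_mod_cast this
      · refine Y120.house_le F hTp.le fun φ => ?_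
        have e1 : (((1 : 𝓞 F)) : F) = 1 := by push_cast; rfl
        rw [e1, map_one, norm_one]
        exact hT1
      · refine Y120.house_le F hTp.le fun φ => ?_
        have e1 : ((((q : ℕ) : 𝓞 F)) : F) = ((q : ℕ) : F) := by push_cast; rfl
        rw [e1, map_natCast, Complex.norm_natCast]
        exact hqT
      · have e1 : (((1 : 𝓞 F)) : F) = 1 := by push_cast; rfl
        have e2 : ((((q : ℕ) : 𝓞 F)) : F) = ((q : ℕ) : F) := by push_cast; rfl
        rw [e1, e2, one_div]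
    · have hbad : ∃ P : MvPolynomial (Fin n) ℂ, Admissible F ι ξ' d ((q : ℝ) ^ A) P ∧ ∃ s,
          ‖aeval (fun j => Complex.Gamma (a j / q)) P‖ < (q : ℝ) ^ (-(K' * Bm + n * d)) * ‖P.coeff s‖ := by
        by_contra hcon
        apply hab
        refine good_of_key q hq1' F ι ξ d A _ a fun P hP s => ?_
        by_contra hlt
        exact hcon ⟨P, hP, s, not_le.1 hlt⟩
      obtain ⟨P, hP, s, hlt⟩ := hbad
      obtain ⟨R, hR1, hR2, s₀, hs₀, hs⟩ := transfer q hq1' F ι ξ' d A A' (K' * Bm) T le_rfl hqT a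
        (fun j => ⟨(ha j).1, (ha j).2.1⟩) P hP s hlt
      refine ⟨R, hR1, hR2, s₀, hs₀, ?_⟩
      have hfun : (fun i => gf b D c i (ι ((q : F))⁻¹)) = fun j => Complex.Gamma (1 + (a j : ℂ) / q) := by
        funext j
        rw [gf, hιq]
        congr 2
        have hDj : (D j : ℂ) ≠ 0 := by exact_mod_cast (hD0 j).ne'
        have hqc : (q : ℂ) ≠ 0 := by exact_mod_cast (by omega : q ≠ 0)
        have h4 : (a j : ℂ) * D j = b j + c j * q := by exact_mod_cast hac j
        rw [div_eq_div_iff hDj hqc]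
        field_simp
        linear_combination -h4
      change ‖aeval (fun i => gf b D c i (ι ((q : F))⁻¹)) R‖ ≤ _
      rw [hfun]
      refine hs.trans (mul_le_mul_of_nonneg_right ?_ (norm_nonneg _))
      calc (q : ℝ) ^ (-(K' * Bm)) = ((q : ℝ) ^ K') ^ (-Bm) := by
            rw [← Real.rpow_mul hqp.le]
            congr 1
            ring
        _ ≤ T ^ (-Bm) := by
            rw [Real.rpow_neg (by positivity), Real.rpow_neg hTp.le]
            refine inv_anti₀ (Real.rpow_pos_of_pos hTp _) ?_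
            refine Real.rpow_le_rpow hTp.le ?_ hBm0
            exact Real.rpow_le_rpow hNp.le h1 hKp.le
        _ ≤ T ^ (-B c) := Real.rpow_le_rpow_of_exponent_le hT1 (neg_le_neg hBB)
  rw [Set.ncard_eq_toFinset_card _ hEf]
  calc hEf.toFinset.card ≤ _ := Finset.card_le_card hcov
    _ ≤ _ := Finset.card_biUnion_le
    _ ≤ ∑ c ∈ 𝒞, C c := Finset.sum_le_sum hone
    _ ≤ _ := Nat.le_add_right _ _

end Pool.Agent.Results.MP_274814_nt.AlmostAllQ
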