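import Pool.Agent.R347.EM.Over
import Pool.Agent.R347.LC.Gen

set_option autoImplicit false

/-!
# Incomplete gamma values and the fields `F_n` over fields generated by Liouville numbers and `e`

Let `q_0, q_1, …` be integers `≥ 2`. A real number `x` is *approximable* if for some `h` and every `κ` there
are, for all large `k`, integers `u` and `1 ≤ v ≤ q_k ^ h` with `|x - u / v| ≤ q_k ^ (-κ)`. The approximable
numbers form a field. Every Liouville number `ξ` is approximable for some sequence, so that `ℚ(ξ)` is contained in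
such a field; for `q_k = 2 ^ ((k + 2)!)` the field has transcendence degree the cardinality of the continuum.

Let `Γ(a, x) = ∫_x^∞ t^(a-1) e^(-t) dt` and `γ(a, x) = ∫_0^x t^(a-1) e^(-t) dt`, and for an integer `n > 2` let `F_n`
be the set of the numbers `π` and `Γ(k/n)`, `1 ≤ k < n`, `k` prime to `n`. The conjecture of Lang and Rohrlich
says that the transcendence degree of `ℚ(F_n)` is at least `1 + φ(n)/2`.

**Theorem.** Let `L` be a field of approximable numbers, for example `ℚ` or `ℚ(ξ)` for any Liouville number `ξ`.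

(1) The number `e` and all the numbers `γ(a, x)` (`a`, `x` rational, `0 < a < 1`, `0 < x`) are algebraically
independent over `L`.

(2) Let `B` be a set of real numbers. The number of the pairs `(a, x)` of rational numbers `0 < a < 1`, `0 < x` such
that `Γ(a)` and `Γ(a, x)` are algebraic over `L(e, B)` is at most the transcendence degree of `L(e, B)` over `L(e)`.

(3) For every `n > 2` the number of the pairs `(k, x)`, `1 ≤ k < n` prime to `n` and `x` positive rational, for
which `Γ(k/n, x)` is algebraic over `L(e, F_n)` is at most the transcendence degree of `L(e, F_n)` over `L(e)`, which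
is at most `1 + φ(n)/2` and at most the transcendence degree of `ℚ(F_n)` over `ℚ`.

So the transcendence degree in the conjecture is bounded below by the number of exceptions in (3): if there
are `1 + φ(n)/2` exceptions for some `L`, then the conjecture holds for `n`, and if it does not hold, there are at most
`φ(n)/2` exceptions for every `L`.

The proof uses the measure for the values of E-functions in `Pool/Agent/R347/EM/Meas.lean` and the algebraic
independence of the functions in the modules `Pool/Agent/R352/T` of this repository.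
-/

namespace Pool.Agent.Results.MP_274814_nt.IncompleteGammaValues

open Set MeasureTheory

/-- For some `h` and every `κ`, for all large `k`, there are integers `u` and `1 ≤ v ≤ (q k) ^ h` with
`|x - u / v| ≤ (q k) ^ (-κ)`. -/
def Approximable (q : ℕ → ℕ) (x : ℝ) : Prop :=
  ∃ h : ℕ, ∀ κ : ℕ, ∃ k₀ : ℕ, ∀ k ≥ k₀, ∃ (u : ℤ) (v : ℕ), 1 ≤ v ∧ v ≤ q k ^ h ∧
    |x - (u : ℝ) / v| ≤ (((q k : ℕ) : ℝ) ^ κ)⁻¹

/-- The sequence `2 ^ ((k + 2)!)`. -/
def q₀ (k : ℕ) : ℕ := 2 ^ (k + 2).factorial

/-- `Γ(a, x) = ∫_x^∞ t^(a-1) e^(-t) dt` -/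
noncomputable def upperGamma (a x : ℚ) : ℝ := ∫ t in Ioi (x : ℝ), t ^ ((a : ℝ) - 1) * Real.exp (-t)

/-- `γ(a, x) = ∫_0^x t^(a-1) e^(-t) dt` -/
noncomputable def lowerGamma (a x : ℚ) : ℝ := ∫ t in Ioc (0 : ℝ) x, t ^ ((a : ℝ) - 1) * Real.exp (-t)

/-- the numbers `π` and `Γ(k/n)`, `1 ≤ k < n` prime to `n` -/
def F (n : ℕ) : Set ℝ :=
  {Real.pi} ∪ {y | ∃ k : ℕ, 1 ≤ k ∧ k < n ∧ Nat.Coprime k n ∧ y = Real.Gamma ((k : ℝ) / n)}

/-- the field `L(e)` -/
noncomputable def Le (L : IntermediateField ℚ ℝ) : IntermediateField ℚ ℝ :=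
  IntermediateField.adjoin ℚ ((L : Set ℝ) ∪ {Real.exp 1})

/-- the field `L(e, B)`, as an extension of `L(e)` -/
noncomputable def LeB (L : IntermediateField ℚ ℝ) (B : Set ℝ) : IntermediateField (Le L) ℝ :=
  IntermediateField.adjoin (Le L) B

/-- the transcendence degree of `L(e, B)` over `L(e)` -/
noncomputable def degreeOver (L : IntermediateField ℚ ℝ) (B : Set ℝ) : Cardinal := Algebra.trdeg (Le L) (LeB L B)

/-- the transcendence degree of `ℚ(B)` -/
noncomputable def degree (B : Set ℝ) : Cardinal := Algebra.trdeg ℚ (IntermediateField.adjoin ℚ B)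

/-- the pairs `(a, x)` of rational numbers `0 < a < 1`, `0 < x` with `Γ(a)` and `Γ(a, x)` algebraic over `L(e, B)` -/
def algebraicPairs (L : IntermediateField ℚ ℝ) (B : Set ℝ) : Set (ℚ × ℚ) :=
  {p | 0 < p.1 ∧ p.1 < 1 ∧ 0 < p.2 ∧ IsAlgebraic (LeB L B) (Real.Gamma p.1) ∧
    IsAlgebraic (LeB L B) (upperGamma p.1 p.2)}

/-- the pairs `(k, x)` with `1 ≤ k < n` prime to `n`, `x` positive rational and `Γ(k/n, x)` algebraic
over `L(e, F_n)` -/
def exceptions (L : IntermediateField ℚ ℝ) (n : ℕ) : Set (ℕ × ℚ) :=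
  {p | 1 ≤ p.1 ∧ p.1 < n ∧ Nat.Coprime p.1 n ∧ 0 < p.2 ∧
    IsAlgebraic (LeB L (F n)) (upperGamma ((p.1 : ℚ) / n) p.2)}

/-- the numbers `e` and `γ(a, x)`, `a`, `x` rational, `0 < a < 1`, `0 < x` -/
noncomputable def family (o : Option {p : ℚ × ℚ // 0 < p.1 ∧ p.1 < 1 ∧ 0 < p.2}) : ℝ :=
  o.elim (Real.exp 1) (fun p => lowerGamma p.1.1 p.1.2)

/-- the statements (1), (2) and (3) for the field `L` -/
def Good (L : IntermediateField ℚ ℝ) : Prop :=
  AlgebraicIndependent L family ∧
  (∀ B : Set ℝ, Cardinal.mk (algebraicPairs L B) ≤ degreeOver L B) ∧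
  ∀ n : ℕ, 2 < n → Cardinal.mk (exceptions L n) ≤ degreeOver L (F n) ∧
    degreeOver L (F n) ≤ ((1 + n.totient / 2 : ℕ) : Cardinal) ∧ degreeOver L (F n) ≤ degree (F n)

open Pool.Agent.R352.E (clF mem_clF subset_clF clF_mono clF_le of_pow)
open Pool.Agent.R347.EM
open Pool.Agent.R347.EM.T (card_over AI_subL AI_genericL trdeg_leL)

theorem upper_eq (a x : ℚ) : upperGamma a x = Pool.Agent.R352.T.gu a x := rfl

theorem lower_eq {a x : ℚ} (ha : 0 < a) (hx : 0 < x) : lowerGamma a x = Real.Gamma a - upperGamma a x := by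
  have ha' : (0 : ℝ) < a := by exact_mod_cast ha
  have hx' : (0 : ℝ) < x := by exact_mod_cast hx
  have h1 : IntegrableOn (fun t : ℝ => t ^ ((a : ℝ) - 1) * Real.exp (-t)) (Ioi 0) := by
    refine (Real.GammaIntegral_convergent ha').congr_fun (fun t _ => ?_) measurableSet_Ioi
    show Real.exp (-t) * t ^ ((a : ℝ) - 1) = t ^ ((a : ℝ) - 1) * Real.exp (-t)
    ring
  have h2 : Real.Gamma a = ∫ t in Ioi (0 : ℝ), t ^ ((a : ℝ) - 1) * Real.exp (-t) := by
    rw [Real.Gamma_eq_integral ha']
    refine setIntegral_congr_fun measurableSet_Ioi fun t _ => ?_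
    show Real.exp (-t) * t ^ ((a : ℝ) - 1) = t ^ ((a : ℝ) - 1) * Real.exp (-t)
    ring
  rw [h2, ← Ioc_union_Ioi_eq_Ioi hx'.le, setIntegral_union (Ioc_disjoint_Ioi le_rfl) measurableSet_Ioi
    (h1.mono_set Ioc_subset_Ioi_self) (h1.mono_set (Ioi_subset_Ioi hx'.le)), lowerGamma, upperGamma]
  ring

theorem sin_mem (T : Set ℝ) (a : ℚ) : Real.sin (Real.pi * a) ∈ clF T := by
  have h1 := Real.isAlgebraic_sin_rat_mul_pi a
  rw [mul_comm] at h1
  refine mem_clF.2 ?_
  have h2 : IsAlgebraic ℚ (Real.sin (Real.pi * a)) := h1.extendScalars (by exact Int.cast_injective)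
  exact h2.extendScalars (FaithfulSMul.algebraMap_injective ℚ (IntermediateField.adjoin ℚ T))

theorem reflect {T : Set ℝ} {a : ℚ} (ha : 0 < a) (h1 : Real.pi ∈ clF T) (h2 : Real.Gamma a ∈ clF T) :
    Real.Gamma (1 - a) ∈ clF T := by
  have ha' : (0 : ℝ) < a := by exact_mod_cast ha
  have h0 := (Real.Gamma_pos_of_pos ha').ne'
  have h := Real.Gamma_mul_Gamma_one_sub a
  have h3 : Real.Gamma (1 - a) = Real.pi / Real.sin (Real.pi * a) / Real.Gamma a := by
    rw [← h]; field_simp
  rw [h3]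
  exact (clF T).div_mem ((clF T).div_mem h1 (sin_mem T a)) h2

/-- the numbers `k < n/2` prime to `n` -/
def half (n : ℕ) : Finset ℕ := (Finset.range n).filter fun k => 1 ≤ k ∧ 2 * k < n ∧ Nat.Coprime k n

theorem half_card (n : ℕ) : (half n).card ≤ n.totient / 2 := by
  classical
  have h1 : Disjoint (half n) ((half n).image fun k => n - k) := by
    rw [Finset.disjoint_left]
    intro k hk hk'
    obtain ⟨j, hj, hjk⟩ := Finset.mem_image.1 hk'
    have h2 := (Finset.mem_filter.1 hk).2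
    have h3 := (Finset.mem_filter.1 hj).2
    omega
  have h2 : ((half n).image fun k => n - k).card = (half n).card := by
    refine Finset.card_image_of_injOn fun a ha b hb hab => ?_
    have h3 := (Finset.mem_filter.1 (Finset.mem_coe.1 ha)).2
    have h4 := (Finset.mem_filter.1 (Finset.mem_coe.1 hb)).2
    have hab' : n - a = n - b := hab
    omega
  have h3 : half n ∪ ((half n).image fun k => n - k) ⊆ (Finset.range n).filter n.Coprime := by
    intro k hk
    rcases Finset.mem_union.1 hk with hk | hk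
    · have h4 := Finset.mem_filter.1 hk
      exact Finset.mem_filter.2 ⟨h4.1, h4.2.2.2.symm⟩
    · obtain ⟨j, hj, rfl⟩ := Finset.mem_image.1 hk
      have h4 := Finset.mem_filter.1 hj
      refine Finset.mem_filter.2 ⟨Finset.mem_range.2 (by omega), ?_⟩
      have h5 : j ≤ n := by omega
      exact (Nat.coprime_self_sub_right h5).2 h4.2.2.2.symm
  have h4 := Finset.card_le_card h3
  rw [Finset.card_union_of_disjoint h1, h2, ← Nat.totient_eq_card_coprime] at h4
  omega

/-- generators of the algebraic closure -/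
noncomputable def gens (n : ℕ) : Finset ℝ := by
  classical
  exact {Real.pi} ∪ (half n).image fun k : ℕ => Real.Gamma ((k : ℝ) / n)

theorem gens_card (n : ℕ) : (gens n).card ≤ 1 + n.totient / 2 := by
  classical
  rw [gens]
  refine (Finset.card_union_le _ _).trans ?_
  have := Finset.card_image_le (s := half n) (f := fun k : ℕ => Real.Gamma ((k : ℝ) / n))
  have h1 := half_card n
  simp only [Finset.card_singleton]
  omega

theorem F_sub (n : ℕ) (hn : 2 < n) (T : Set ℝ) (hT : (gens n : Set ℝ) ⊆ clF T) : F n ⊆ clF T := by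
  classical
  have hpi : Real.pi ∈ clF T := hT (by simp [gens])
  have hn' : (0 : ℝ) < n := by exact_mod_cast (by omega : 0 < n)
  rintro y (rfl | ⟨k, h1, h2, h3, rfl⟩)
  · exact hpi
  · rcases lt_trichotomy (2 * k) n with h | h | h
    · refine hT ?_
      rw [gens]
      simp only [Finset.coe_union, Finset.coe_image]
      refine Or.inr ⟨k, ?_, rfl⟩
      rw [Finset.mem_coe, half, Finset.mem_filter, Finset.mem_range]
      exact ⟨h2, h1, h, h3⟩
    · exfalso
      have h4 : k ∣ Nat.gcd k n := Nat.dvd_gcd dvd_rfl ⟨2, by omega⟩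
      rw [h3] at h4
      have := Nat.le_of_dvd one_pos h4
      omega
    · have h4 : Real.Gamma (((n - k : ℕ) : ℝ) / n) ∈ clF T := by
        refine hT ?_
        rw [gens]
        simp only [Finset.coe_union, Finset.coe_image]
        refine Or.inr ⟨n - k, ?_, rfl⟩
        rw [Finset.mem_coe, half, Finset.mem_filter, Finset.mem_range]
        exact ⟨by omega, by omega, by omega, (Nat.coprime_self_sub_left h2.le).2 h3⟩
      have ha : (0 : ℚ) < (((n - k : ℕ) : ℚ) / n) := by
        have h5 : 0 < n - k := by omega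
        have h6 : 0 < n := by omega
        positivity
      have h5 := reflect ha hpi (by push_cast; exact h4)
      have h6 : (1 : ℝ) - ((((n - k : ℕ) : ℚ) / n : ℚ) : ℝ) = (k : ℝ) / n := by
        push_cast [Nat.cast_sub h2.le]
        field_simp
        ring
      rwa [h6] at h5

/-- the transcendence degree over a larger field -/
theorem trdeg_mono (K : IntermediateField ℚ ℝ) {A : Set ℝ} (hA : A.Finite) :
    Algebra.trdeg K (IntermediateField.adjoin K A) ≤ Algebra.trdeg ℚ (IntermediateField.adjoin ℚ A) := by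
  obtain ⟨I, hI⟩ := (ML K).exists_isBasis A (subset_univ _)
  have hfin : I.Finite := hA.subset hI.subset
  have := hfin.fintype
  have h1 : AlgebraicIndependent K (fun i : I => (i : ℝ)) := hI.indep
  have h2 : AlgebraicIndependent ℚ (fun i : I => (i : ℝ)) :=
    h1.restrictScalars (FaithfulSMul.algebraMap_injective ℚ K)
  have h3 := trdeg_leL (K := K) (A := A) (G := I) (n := Fintype.card I) (fun x hx => mem_cl'.2 (hI.subset_closure hx))
    (by rw [Set.encard, ENat.card_eq_coe_fintype_card])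
  refine h3.trans ?_
  let f : I → IntermediateField.adjoin ℚ A := fun i => ⟨i, IntermediateField.subset_adjoin ℚ A (hI.subset i.2)⟩
  have hf : AlgebraicIndependent ℚ f := by
    have h1 : Function.Injective (IntermediateField.adjoin ℚ A).val := (IntermediateField.adjoin ℚ A).val.injective
    exact ((IntermediateField.adjoin ℚ A).val.algebraicIndependent_iff h1).1 h2
  have h4 := hf.cardinalMk_le_trdeg
  rwa [Cardinal.mk_fintype] at h4

theorem F_finite (n : ℕ) : (F n).Finite := by
  refine (finite_singleton _).union (((finite_lt_nat n).image fun k : ℕ => Real.Gamma ((k : ℝ) / n)).subset ?_)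
  rintro y ⟨k, -, h, -, rfl⟩
  exact ⟨k, h, rfl⟩

theorem Le_eq (L : IntermediateField ℚ ℝ) : Le L = Pool.Agent.R347.EM.T.Le L :=
  (IntermediateField.restrictScalars_adjoin ℚ L {Real.exp 1}).symm

/-- the results of the module `R347/EM/Over` for the field `K = L(e)` -/
theorem over_K {q : ℕ → ℕ} (hq : ∀ k, 2 ≤ q k) {L : IntermediateField ℚ ℝ} (hL : ∀ x ∈ L, Approximable q x)
    (K : IntermediateField ℚ ℝ) (hK : K = Pool.Agent.R347.EM.T.Le L) (B : Set ℝ) :
    Cardinal.mk {p : ℚ × ℚ | 0 < p.1 ∧ p.1 < 1 ∧ 0 < p.2 ∧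
      IsAlgebraic (IntermediateField.adjoin K B) (Real.Gamma p.1) ∧
      IsAlgebraic (IntermediateField.adjoin K B) (upperGamma p.1 p.2)} ≤
      Algebra.trdeg K (IntermediateField.adjoin K B) := by
  subst hK
  exact card_over hq hL (B := B) fun _ hp => ⟨hp.1, hp.2.1, hp.2.2.1, mem_cl.2 hp.2.2.2.1, mem_cl.2 hp.2.2.2.2⟩

theorem pairs_le {q : ℕ → ℕ} (hq : ∀ k, 2 ≤ q k) {L : IntermediateField ℚ ℝ} (hL : ∀ x ∈ L, Approximable q x)
    (B : Set ℝ) : Cardinal.mk (algebraicPairs L B) ≤ degreeOver L B :=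
  over_K hq hL (Le L) (Le_eq L) B

theorem exceptions_le (L : IntermediateField ℚ ℝ) (n : ℕ) (hn : 2 < n) :
    Cardinal.mk (exceptions L n) ≤ Cardinal.mk (algebraicPairs L (F n)) := by
  have hn0 : (0 : ℚ) < n := by exact_mod_cast (by omega : 0 < n)
  refine Cardinal.mk_le_of_injective (f := fun p : exceptions L n =>
    (⟨((p.1.1 : ℚ) / n, p.1.2), ?_, ?_, p.2.2.2.2.1, ?_, p.2.2.2.2.2⟩ : algebraicPairs L (F n))) ?_
  · have : (0 : ℚ) < p.1.1 := by exact_mod_cast p.2.1
    positivity
  · show (p.1.1 : ℚ) / n < 1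
    rw [div_lt_one hn0]
    exact_mod_cast p.2.2.1
  · refine mem_cl.1 (subset_clF _ (Or.inr (Or.inr ⟨p.1.1, p.2.1, p.2.2.1, p.2.2.2.1, ?_⟩)))
    push_cast
    rfl
  · rintro ⟨⟨k, x⟩, hp⟩ ⟨⟨k', x'⟩, hp'⟩ h
    have h0 : ((k : ℚ) / n, x) = ((k' : ℚ) / n, x') := congrArg Subtype.val h
    obtain ⟨h1, h2⟩ := Prod.mk.inj h0
    rw [div_left_inj' hn0.ne'] at h1
    have h3 : k = k' := by exact_mod_cast h1
    subst h3 h2
    rfl

theorem low_indep {q : ℕ → ℕ} (hq : ∀ k, 2 ≤ q k) {L : IntermediateField ℚ ℝ} (hL : ∀ x ∈ L, Approximable q x) :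
    AlgebraicIndependent L family := by
  have h := AI_subL hq hL (P := {p : ℚ × ℚ // 0 < p.1 ∧ p.1 < 1 ∧ 0 < p.2}) (fun p => (0, p.1)) (by
    intro p p' h
    exact Subtype.ext (congrArg Prod.snd h)) (fun p => ⟨p.2.1.le, p.2.2.1, p.2.2.2⟩)
  refine AI_genericL h (R := fun p : {p : ℚ × ℚ // 0 < p.1 ∧ p.1 < 1 ∧ 0 < p.2} => lowerGamma p.1.1 p.1.2) ?_
  rintro ⟨⟨a, x⟩, ha, ha1, hx⟩ T he hR
  simp only at ha ha1 hx hR ⊢
  have ha' : (0 : ℝ) < a := by exact_mod_cast ha
  have hx' : (0 : ℝ) < x := by exact_mod_cast hx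
  have h1 := Pool.Agent.R352.T.EA_rel ha' 0 hx'
  have h2 : (0 : ℝ) < (x : ℝ) ^ (a : ℝ) := Real.rpow_pos_of_pos hx' _
  have h3 : Pool.Agent.R352.T.EA a (0 + 1) x = 1 / (a : ℝ) - lowerGamma a x / (x : ℝ) ^ (a : ℝ) := by
    rw [lower_eq ha hx, upper_eq, Pool.Agent.R352.T.gu_eq _ hx']
    rw [Pool.Agent.R352.T.NA_zero ha'] at h1
    simp only [Nat.factorial_zero, Nat.cast_one, one_mul, pow_zero, zero_add, pow_one] at h1 ⊢
    rw [← h1]
    field_simp
    ring
  rw [h3]
  exact (clF T).sub_mem ((clF T).div_mem (clF T).one_mem (Pool.Agent.R352.E.rat_mem T a))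
    ((clF T).div_mem hR (Pool.Agent.R352.T.rpow_mem hx a))

theorem good_of {q : ℕ → ℕ} (hq : ∀ k, 2 ≤ q k) {L : IntermediateField ℚ ℝ} (hL : ∀ x ∈ L, Approximable q x) :
    Good L := by
  refine ⟨low_indep hq hL, pairs_le hq hL, fun n hn => ⟨(exceptions_le L n hn).trans (pairs_le hq hL _), ?_, ?_⟩⟩
  · exact trdeg_leL (K := Le L) (A := F n) (G := (gens n : Set ℝ))
      (F_sub n hn _ (subset_union_right.trans (subset_clF _)))
      (by rw [Set.encard_coe_eq_coe_finsetCard]; exact_mod_cast gens_card n)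
  · exact trdeg_mono (Le L) (F_finite n)

/-- **Main result.** -/
theorem result :
    -- the approximable numbers form a field
    (∀ q : ℕ → ℕ, (∀ k, 2 ≤ q k) → ∃ L : IntermediateField ℚ ℝ, ∀ x, x ∈ L ↔ Approximable q x) ∧
    -- the transcendence degree of the field for the explicit sequence
    ((∀ k, 2 ≤ q₀ k) ∧ ∀ L : IntermediateField ℚ ℝ, (∀ x, x ∈ L ↔ Approximable q₀ x) →
      Algebra.trdeg ℚ L = Cardinal.continuum) ∧
    -- the statements over all fields of approximable numbers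
    (∀ q : ℕ → ℕ, (∀ k, 2 ≤ q k) → ∀ L : IntermediateField ℚ ℝ, (∀ x ∈ L, Approximable q x) →
      Good L) ∧
    -- in particular over the field `ℚ(ξ)` for a Liouville number `ξ`
    (∀ ξ : ℝ, Liouville ξ → Good (IntermediateField.adjoin ℚ {ξ})) := by
  refine ⟨Pool.Agent.R347.LC.field_ex, ⟨Pool.Agent.R347.LC.two_le_qe,
    Pool.Agent.R347.LC.trdeg_qe⟩, fun q hq L hL => good_of hq hL, fun ξ hξ => ?_⟩
  obtain ⟨q, hq, h⟩ := Pool.Agent.R347.LC.of_liouville hξ
  exact good_of hq h

end Pool.Agent.Results.MP_274814_nt.IncompleteGammaValues
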