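import Pool.Agent.R437.Met.GGE
import Pool.Agent.Y549.GM.Loc

/-!
# Values of the Gamma function at the rational (and algebraic) points near a given point

The Lang–Rohrlich conjecture says that for every `q > 2` the numbers `π` and `Γ(a / q)`, `1 ≤ a < q / 2`,
`gcd (a, q) = 1`, generate a field of transcendence degree `1 + φ(q) / 2`: up to algebraic numbers they are
algebraically independent up to the linear relations which come from the multiplication formula. Here we consider `n`
of these numbers `Γ(x_1), …, Γ(x_n)`, where `x = (x_1, …, x_n)`, for instance `x_j = a_j / q`, is near a given point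
`ξ`. Let `F` be a number field in `ℂ`, for instance `ℚ`, and `c_0, c_1, …` any complex numbers. For every `τ > 0` and
all `ξ` outside a set of Hausdorff dimension at most `2 [F : ℚ] (n - 1) / τ` all `n`-tuples `x` of elements of `F` of
height at most `T`, `T` large, with `|ξ_j - x_j| ≤ C T ^ (-τ)` are good: `π, Γ(x_1), …, Γ(x_n)` satisfy no polynomial
relation of degree at most `d` and height at most `T ^ A` over `F`, and `Γ(x_1), …, Γ(x_n)` satisfy no such relation,
not even an approximate one, whose coefficients are linear combinations of `c_0, …, c_(g-1)` with coefficients in `F`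
of height at most `T ^ A`. For `n = 1` the exceptional set has dimension zero, for every `τ > 0`; for `F = ℚ`, `n = 2`,
`τ > 1` it has dimension less than `2`, so that almost all `ξ` in `(0, 1) ^ 2` have the property.
-/

set_option autoImplicit false

open NumberField

namespace Pool.Agent.Results.MP_274814_nt.NearEveryPoint

open Pool.Agent.R437.Met

/-- The polynomials of degree at most `d` in each variable, all of whose coefficients are of the form `∑ c_i ι(a_i)`,
where the `a_i` are integers of the number field `F` all of whose conjugates have absolute value at most `H`. -/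
def Admissible {σ : Type} {g : ℕ} (F : Type) [Field F] [NumberField F] (ι : F →+* ℂ) (c : Fin g → ℂ) (d : ℕ)
    (H : ℝ) (P : MvPolynomial σ ℂ) : Prop :=
  (∀ j, P.degreeOf j ≤ d) ∧
    ∀ s, ∃ a : Fin g → 𝓞 F, (∀ i (φ : F →+* ℂ), ‖φ (a i)‖ ≤ H) ∧ P.coeff s = ∑ i, c i * ι (a i)

/-- The tuple `x` of elements of `F` is good: every admissible polynomial takes at the numbers `Γ(x_j)` a value which
is at least `δ` times each of its coefficients, and `π` and these numbers satisfy no relation `Q = 0` with a nonzero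
polynomial `Q` of degree at most `d` in each variable whose coefficients are integers of `F` with conjugates of
absolute value at most `H`. -/
def Good {n g : ℕ} (F : Type) [Field F] [NumberField F] (ι : F →+* ℂ) (c : Fin g → ℂ) (d : ℕ) (H δ : ℝ)
    (x : Fin n → F) : Prop :=
  (∀ P : MvPolynomial (Fin n) ℂ, Admissible F ι c d H P → ∀ s,
    δ * ‖P.coeff s‖ ≤ ‖MvPolynomial.aeval (fun j => Complex.Gamma (ι (x j))) P‖) ∧
  ∀ Q : MvPolynomial (Option (Fin n)) (𝓞 F), Q ≠ 0 → (∀ i, Q.degreeOf i ≤ d) →
    (∀ s (φ : F →+* ℂ), ‖φ ((Q.coeff s : 𝓞 F) : F)‖ ≤ H) →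
    MvPolynomial.eval₂ (ι.comp (algebraMap (𝓞 F) F))
      (fun o => o.elim (Real.pi : ℂ) fun j => Complex.Gamma (ι (x j))) Q ≠ 0

/-- The element `x` of `F` is a quotient of integers all of whose conjugates have absolute value at most `T`. -/
def HeightLe (F : Type) [Field F] [NumberField F] (T : ℝ) (x : F) : Prop :=
  ∃ a b : 𝓞 F, b ≠ 0 ∧ (∀ φ : F →+* ℂ, ‖φ a‖ ≤ T ∧ ‖φ b‖ ≤ T) ∧ x = a / b

lemma S_open : IsOpen {t : ℂ | ∀ m : ℕ, t ≠ -m} := by
  have e : {t : ℂ | ∀ m : ℕ, t ≠ -m} = (fun t : ℂ => (Complex.Gamma t)⁻¹) ⁻¹' {0}ᶜ := by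
    ext t
    simp only [Set.mem_ofPred_eq, Set.mem_preimage, Set.mem_compl_iff, Set.mem_singleton_iff, inv_eq_zero,
      Complex.Gamma_eq_zero_iff, not_exists]
  rw [e]
  exact isOpen_compl_singleton.preimage Complex.differentiable_one_div_Gamma.continuous

lemma gamma_an (t : ℂ) (ht : ∀ m : ℕ, t ≠ -m) : AnalyticAt ℂ Complex.Gamma t := by
  have h1 : AnalyticAt ℂ (fun s : ℂ => (Complex.Gamma s)⁻¹) t :=
    Complex.differentiable_one_div_Gamma.analyticAt t
  have h2 := h1.inv (inv_ne_zero (Complex.Gamma_ne_zero ht))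
  have h3 : (fun s : ℂ => (Complex.Gamma s)⁻¹)⁻¹ = Complex.Gamma := by
    funext s
    simp
  rwa [h3] at h2

lemma gamma_ind (t : ℂ) (ht : ∀ m : ℕ, t ≠ -m) :
    Pool.Agent.Y124.LocInd (fun _ : Unit => Complex.Gamma) t := by
  refine Pool.Agent.Y549.GM.locInd Set.univ isOpen_univ isPreconnected_univ (fun (_ : Unit) (t : ℂ) => t)
    (fun _ => differentiable_id.differentiableOn) ?_ ?_ ?_ t (Set.mem_univ t) fun _ m => ht m
  · intro _
    refine ⟨Polynomial.X - Polynomial.C Polynomial.X, Polynomial.X_sub_C_ne_zero _, fun t _ => ?_⟩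
    simp [Polynomial.evalEval]
  · intro _ v h
    have h1 := h 0 (Set.mem_univ _)
    have h2 := h 1 (Set.mem_univ _)
    rw [← h1] at h2
    exact one_ne_zero h2
  · intro i k hik
    exact absurd (Subsingleton.elim i k) hik

/-- **Gamma values near a given point.** Let `F` be a number field with an embedding `ι` in `ℂ`, `n ≥ 1`, `c` a
sequence of complex numbers. For every `τ > 0` there is a set `E` of Hausdorff dimension at most
`2 [F : ℚ] (n - 1) / τ` such that for all `ξ` in `ℂ ^ n` outside `E` without coordinates `0, -1, -2, …` and all `g`,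
`d`, `A` there is `B` such that for all `C` and all large `T`: the `n`-tuples `x` of elements of `F` of height at most
`T` with `|ξ_j - ι(x_j)| ≤ C T ^ (-τ)` for all `j` are good, for the degree `d`, the height `T ^ A`, the first `g` of
the numbers `c`, and the measure `T ^ (-B)`. -/
theorem result (n : ℕ) (hn : 1 ≤ n) (F : Type) [Field F] [NumberField F] (ι : F →+* ℂ) (c : ℕ → ℂ) (τ : ℝ)
    (hτ : 0 < τ) :
    ∃ E : Set (Fin n → ℂ), dimH E ≤ ENNReal.ofReal (2 * (Module.finrank ℚ F : ℝ) * ((n : ℝ) - 1) / τ) ∧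
      ∀ ξ : Fin n → ℂ, (∀ j, ∀ m : ℕ, ξ j ≠ -m) → ξ ∉ E → ∀ (g d : ℕ) (A : ℝ), ∃ B : ℝ, ∀ C : ℝ, ∃ T₁ : ℝ,
        ∀ T : ℝ, T₁ ≤ T → ∀ x : Fin n → F,
          (∀ j, HeightLe F T (x j) ∧ ‖ξ j - ι (x j)‖ ≤ C * T ^ (-τ)) →
            Good F ι (fun i : Fin g => c i) d (T ^ A) (T ^ (-B)) x :=
  GG.master1 F ι n hn (fun _ => Complex.Gamma) {t : ℂ | ∀ m : ℕ, t ≠ -m} S_open
    (fun _ t ht => gamma_an t ht) (fun _ t ht => gamma_ind t ht) c τ hτ

end Pool.Agent.Results.MP_274814_nt.NearEveryPoint
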