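import Pool.Agent.R349.LocalMulti
import Pool.Agent.R349.Base
import Pool.Agent.Y549.GM.Loc
import Pool.Agent.H340R2.LW

/-!
# The Lang–Rohrlich conjecture, for every large `q`: a bounded number of exceptions in short intervals

Let `q > 2`. The field `F_q` is algebraic over the field generated by `π` and the `φ(q) / 2` numbers `Γ(a / q)`, `1 ≤ a < q / 2`,
`gcd(a, q) = 1`, and the conjecture says that these `1 + φ(q) / 2` numbers are algebraically independent. We call a tuple
`(a_1, …, a_n)` of these residues good if the `n + 1` numbers `π`, `Γ(a_1 / q), …, Γ(a_n / q)` satisfy no polynomial relation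
of degree at most `d` with coefficients of height at most `q ^ A` in a given number field of degree at most `m`, and the `n`
numbers `Γ(a_j / q)` satisfy no such relation, not even an approximate one, whose coefficients are combinations of given
complex numbers `ξ_1, …, ξ_g` (for instance of `π`, of values of `Γ` at other points with denominator `q`, or of monomials in
such numbers).

Let `δ > 0`. There is a number `C` such that for EVERY large `q` and all sets `Y_1, …, Y_n` of residues, each of them contained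
in an interval of length `q ^ (1 - δ)`, the number of the bad tuples of `Y_1 × … × Y_n` is at most
`C ∑_j ∏_(i ≠ j) |Y_i|`, while there are `∏ |Y_i|` tuples. In particular there is a good tuple if every `Y_j` has more than `C`
elements, for instance among the first `n (C + 1)` residues; and, since `[0, q / 2]` is the union of `q ^ δ` such intervals,
among any `q ^ (2 δ)` residues there are `n` which form a good tuple.

Proof. Determinants of Bombieri-Pila type, for relations with varying coefficients and arbitrary constants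
(`Pool.Agent.Y120.local_thmN` of the starting files), are applied to the function `Γ(1 + t)` near the points `a / q`. The factors
`a / q` in `Γ(1 + a / q) = (a / q) Γ(a / q)` are absorbed by the coefficients.
-/

set_option autoImplicit false

open NumberField MvPolynomial

namespace Pool.Agent.Results.MP_274814_nt.ShortIntervals

/-- The integers `a` with `1 ≤ a < q / 2` and `gcd(a, q) = 1`. -/
def Residues (q : ℕ) : Finset ℕ := (Finset.range q).filter fun a => 1 ≤ a ∧ 2 * a < q ∧ Nat.Coprime a q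

/-- The polynomials in `n` variables, of degree at most `d` in each variable, all of whose coefficients are of the form
`∑ ξ_i ι(c_i)`, where the `c_i` are integers of the number field `F` all of whose conjugates have absolute value at
most `H`. -/
def Admissible {n g : ℕ} (F : Type) [Field F] [NumberField F] (ι : F →+* ℂ) (ξ : Fin g → ℂ) (d : ℕ) (H : ℝ)
    (P : MvPolynomial (Fin n) ℂ) : Prop :=
  (∀ j, P.degreeOf j ≤ d) ∧
    ∀ s, ∃ c : Fin g → 𝓞 F, (∀ i (φ : F →+* ℂ), ‖φ (c i)‖ ≤ H) ∧ P.coeff s = ∑ i, ξ i * ι (c i)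

/-- The tuple `a` is good: every admissible polynomial takes at the numbers `Γ(a_j / q)` a value which is at least `q ^ (-B)`
times each of its coefficients, and `π` and the numbers `Γ(a_j / q)` satisfy no relation `Q = 0` with a nonzero polynomial `Q` of
degree at most `d` in each variable whose coefficients are integers of `F` with conjugates of absolute value at most `q ^ A`. -/
def Good {n g : ℕ} (q : ℕ) (F : Type) [Field F] [NumberField F] (ι : F →+* ℂ) (ξ : Fin g → ℂ) (d : ℕ) (A B : ℝ)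
    (a : Fin n → ℕ) : Prop :=
  (∀ P : MvPolynomial (Fin n) ℂ, Admissible F ι ξ d ((q : ℝ) ^ A) P → ∀ s,
    (q : ℝ) ^ (-B) * ‖P.coeff s‖ ≤ ‖aeval (fun j => Complex.Gamma (a j / q)) P‖) ∧
  ∀ Q : MvPolynomial (Option (Fin n)) (𝓞 F), Q ≠ 0 → (∀ x, Q.degreeOf x ≤ d) →
    (∀ s (φ : F →+* ℂ), ‖φ ((Q.coeff s : 𝓞 F) : F)‖ ≤ (q : ℝ) ^ A) →
    eval₂ (ι.comp (algebraMap (𝓞 F) F)) (fun o => o.elim (Real.pi : ℂ) fun j => Complex.Gamma (a j / q)) Q ≠ 0

open Pool.Agent.R349

/-- nonvanishing of polynomials in `π` over a number field -/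
lemma pi_poly {F : Type} [Field F] [NumberField F] (ι : F →+* ℂ) (N : ℕ) (c : Fin N → F) (k₀ : Fin N) (hk : c k₀ ≠ 0) :
    ∑ k : Fin N, (Real.pi : ℂ) ^ (k : ℕ) * ι (c k) ≠ 0 := by
  classical
  let _ : Algebra F ℂ := ι.toAlgebra
  intro h
  have htr := Pool.Agent.H340R2.LW.transcendental_pi_complex
  apply htr
  have halg : IsAlgebraic F (Real.pi : ℂ) := by
    refine ⟨∑ k : Fin N, Polynomial.monomial (k : ℕ) (c k), ?_, ?_⟩
    · intro h0
      have h1 := congrArg (fun p => Polynomial.coeff p (k₀ : ℕ)) h0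
      simp only [Polynomial.finsetSum_coeff, Polynomial.coeff_monomial, Polynomial.coeff_zero] at h1
      have h2 : ∑ k : Fin N, (if (k : ℕ) = (k₀ : ℕ) then c k else 0) = c k₀ := by
        rw [Finset.sum_eq_single k₀]
        · simp
        · intro b _ hb
          rw [if_neg (fun hh => hb (Fin.ext hh))]
        · intro hh
          exact absurd (Finset.mem_univ _) hh
      rw [h2] at h1
      exact hk h1
    · rw [map_sum, ← h]
      refine Finset.sum_congr rfl fun k _ => ?_
      rw [Polynomial.aeval_monomial, mul_comm]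
      rfl
  exact halg.restrictScalars ℚ

/-- the inequality for the constants `ξ` together with the powers of `π` is enough -/
lemma good_of_key {n g : ℕ} (q : ℕ) (hq1 : 1 ≤ q) (F : Type) [Field F] [NumberField F] (ι : F →+* ℂ) (ξ : Fin g → ℂ)
    (d : ℕ) (A B : ℝ) (a : Fin n → ℕ)
    (key : ∀ P : MvPolynomial (Fin n) ℂ,
      Admissible F ι (Fin.append ξ fun k : Fin (d + 1) => (Real.pi : ℂ) ^ (k : ℕ)) d ((q : ℝ) ^ A) P → ∀ s,
      (q : ℝ) ^ (-B) * ‖P.coeff s‖ ≤ ‖aeval (fun j => Complex.Gamma (a j / q)) P‖) : Good q F ι ξ d A B a := by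
  have hqp : (0 : ℝ) < q := by exact_mod_cast hq1
  refine ⟨?_, ?_⟩
  · intro P hP s
    refine key P ⟨hP.1, fun s' => ?_⟩ s
    obtain ⟨c, hc1, hc2⟩ := hP.2 s'
    refine ⟨Fin.append c 0, fun i φ => ?_, ?_⟩
    · refine Fin.addCases (fun i => ?_) (fun i => ?_) i
      · rw [Fin.append_left]
        exact hc1 i φ
      · rw [Fin.append_right]
        simp only [Pi.zero_apply, map_zero, norm_zero]
        positivity
    · rw [hc2, Fin.sum_univ_add]
      simp [Fin.append_left, Fin.append_right]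
  · intro Q hQ0 hQd hQc h0
    have hcoef := spec_coeff (ι.comp (algebraMap (𝓞 F) F)) (Real.pi : ℂ) Q d (hQd none)
    obtain ⟨u0, hu0⟩ := ne_zero_iff.1 hQ0
    have hP : Admissible F ι (Fin.append ξ fun k : Fin (d + 1) => (Real.pi : ℂ) ^ (k : ℕ)) d ((q : ℝ) ^ A)
        (spec (ι.comp (algebraMap (𝓞 F) F)) (Real.pi : ℂ) Q) := by
      refine ⟨fun j => ?_, fun s => ?_⟩
      · rw [degreeOf_le_iff]
        intro s hs
        rw [mem_support_iff, hcoef] at hs
        obtain ⟨k, -, hk⟩ := Finset.exists_ne_zero_of_sum_ne_zero hs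
        have h1 : opt (k : ℕ) s ∈ Q.support := by
          rw [mem_support_iff]
          intro h
          apply hk
          rw [h, map_zero, mul_zero]
        have h2 := (monomial_le_degreeOf (some j) h1).trans (hQd (some j))
        rwa [show opt (k : ℕ) s (some j) = s j by simp [opt]] at h2
      · refine ⟨Fin.append (fun _ => 0) fun k : Fin (d + 1) => Q.coeff (opt (k : ℕ) s), fun i φ => ?_, ?_⟩
        · refine Fin.addCases (fun i => ?_) (fun i => ?_) i
          · rw [Fin.append_left]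
            simp only [map_zero, norm_zero]
            positivity
          · rw [Fin.append_right]
            exact hQc _ φ
        · rw [hcoef]
          refine Eq.symm ((Fin.sum_univ_add _).trans ?_)
          simp only [Fin.append_left, Fin.append_right, map_zero, mul_zero, Finset.sum_const_zero, zero_add]
          rfl
    have h1 := key _ hP u0.some
    rw [spec_eval, h0, norm_zero, hcoef] at h1
    have h2 : ∑ k : Fin (d + 1), (Real.pi : ℂ) ^ (k : ℕ) *
        ι (((Q.coeff (opt (k : ℕ) u0.some) : 𝓞 F)) : F) ≠ 0 := by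
      have h3 : u0 none ≤ d := (monomial_le_degreeOf none (mem_support_iff.2 hu0)).trans (hQd none)
      refine pi_poly ι (d + 1) (fun k => ((Q.coeff (opt (k : ℕ) u0.some) : 𝓞 F) : F))
        ⟨u0 none, Nat.lt_succ_of_le h3⟩ ?_
      simp only
      rw [opt_eta]
      exact_mod_cast hu0
    have h3 : 0 < (q : ℝ) ^ (-B) := Real.rpow_pos_of_pos hqp _
    have h4 := norm_pos_iff.2 h2
    have h5 := mul_pos h3 h4
    exact absurd h1 (not_le.2 h5)

/-- a small value of an admissible polynomial at the numbers `Γ(a_j / q)` gives one at the numbers `Γ(1 + a_j / q)` -/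
lemma transfer {n g : ℕ} (q : ℕ) (hq1' : 1 ≤ q) (F : Type) [Field F] [NumberField F] (ι : F →+* ℂ) (ξ : Fin g → ℂ)
    (d : ℕ) (A A' B T : ℝ) (hAA' : |A| + n * d ≤ A') (hqT : (q : ℝ) ≤ T) (a : Fin n → ℕ)
    (ha : ∀ j, 1 ≤ a j ∧ a j < q) (P : MvPolynomial (Fin n) ℂ) (hP : Admissible F ι ξ d ((q : ℝ) ^ A) P) (s : Fin n →₀ ℕ)
    (hlt : ‖aeval (fun j => Complex.Gamma (a j / q)) P‖ < (q : ℝ) ^ (-(B + n * d)) * ‖P.coeff s‖) :
    ∃ R : MvPolynomial (Fin n) ℂ, (∀ x, R.degreeOf x ≤ d) ∧
      (∀ s, ∃ c : Fin g → 𝓞 F, (∀ i (φ : F →+* ℂ), ‖φ (c i : F)‖ ≤ T ^ A') ∧ R.coeff s = ∑ i, ξ i * ι (c i : F)) ∧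
      ∃ s₀, R.coeff s₀ ≠ 0 ∧
        ‖aeval (fun j => Complex.Gamma (1 + (a j : ℂ) / q)) R‖ ≤ (q : ℝ) ^ (-B) * ‖R.coeff s₀‖ := by
  classical
  have hq1 : (1 : ℝ) ≤ q := by exact_mod_cast hq1'
  have hqp : (0 : ℝ) < q := by linarith
  have hT1 : 1 ≤ T := hq1.trans hqT
  have haq : ∀ j, a j ≤ q := fun j => (ha j).2.le
  have ha1 : ∀ j, 1 ≤ a j := fun j => (ha j).1
  have hgam : ∀ j, Complex.Gamma (1 + (a j : ℂ) / q) = (a j : ℂ) / q * Complex.Gamma (a j / q) := by
    intro j
    rw [add_comm, Complex.Gamma_add_one]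
    have h1 : (a j : ℂ) ≠ 0 := by
      have := ha1 j
      exact_mod_cast (by omega : a j ≠ 0)
    have h2 : (q : ℂ) ≠ 0 := by exact_mod_cast (by omega : q ≠ 0)
    exact div_ne_zero h1 h2
  have h0 : P.coeff s ≠ 0 := by
    intro h0
    rw [h0, norm_zero, mul_zero] at hlt
    exact absurd hlt (not_lt.2 (norm_nonneg _))
  obtain ⟨hPd, hPc⟩ := hP
  refine ⟨sc d q a P, sc_degreeOf d q a P hPd, ?_, s, ?_, ?_⟩
  · intro s
    rw [sc_coeff]
    by_cases hs : s ∈ P.support
    · obtain ⟨c, hc1, hc2⟩ := hPc s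
      refine ⟨fun i => c i * ((fac d q a s : ℕ) : 𝓞 F), fun i φ => ?_, ?_⟩
      · have e1 : ((c i * ((fac d q a s : ℕ) : 𝓞 F) : 𝓞 F) : F) = (c i : F) * ((fac d q a s : ℕ) : F) := by
          push_cast
          rfl
        rw [e1, map_mul, map_natCast, norm_mul, Complex.norm_natCast]
        have h2 : ((fac d q a s : ℕ) : ℝ) ≤ (q : ℝ) ^ (n * d) := by
          exact_mod_cast fac_le d q a haq s (le_of_mem P hPd hs)
        have hA0 : 0 ≤ |A| + n * d := by positivity
        calc ‖φ (c i)‖ * ((fac d q a s : ℕ) : ℝ) ≤ (q : ℝ) ^ A * (q : ℝ) ^ (n * d) :=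
              mul_le_mul (hc1 i φ) h2 (Nat.cast_nonneg _) (by positivity)
          _ = (q : ℝ) ^ (A + n * d) := by
              rw [Real.rpow_add hqp, ← Real.rpow_natCast]
              push_cast
              rfl
          _ ≤ (q : ℝ) ^ (|A| + n * d) := Real.rpow_le_rpow_of_exponent_le hq1 (by linarith [le_abs_self A])
          _ ≤ T ^ (|A| + n * d) := Real.rpow_le_rpow hqp.le hqT hA0
          _ ≤ T ^ A' := Real.rpow_le_rpow_of_exponent_le hT1 hAA'
      · rw [hc2, Finset.sum_mul]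
        refine Finset.sum_congr rfl fun i _ => ?_
        have e1 : ((c i * ((fac d q a s : ℕ) : 𝓞 F) : 𝓞 F) : F) = (c i : F) * ((fac d q a s : ℕ) : F) := by
          push_cast
          rfl
        rw [e1, map_mul, map_natCast]
        ring
    · refine ⟨fun _ => 0, fun i φ => ?_, ?_⟩
      · simp only [map_zero, norm_zero]
        positivity
      · rw [notMem_support_iff.1 hs, zero_mul]
        simp
  · rw [sc_coeff]
    refine mul_ne_zero h0 ?_
    have := fac_pos d q a ha1 hq1' s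
    exact_mod_cast (by omega : fac d q a s ≠ 0)
  · simp only [hgam]
    rw [sc_eval d q hq1' a P hPd, sc_coeff, norm_mul, norm_mul, Complex.norm_natCast]
    have h1 : ‖∏ j, (a j : ℂ) ^ d‖ ≤ (q : ℝ) ^ (n * d) := by
      rw [norm_prod]
      calc ∏ j, ‖(a j : ℂ) ^ d‖ ≤ ∏ _j : Fin n, (q : ℝ) ^ d := by
            refine Finset.prod_le_prod (fun _ _ => norm_nonneg _) fun j _ => ?_
            rw [norm_pow, Complex.norm_natCast]
            exact pow_le_pow_left₀ (Nat.cast_nonneg _) (by exact_mod_cast haq j) _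
        _ = (q : ℝ) ^ (n * d) := by
            rw [Finset.prod_const, Finset.card_univ, Fintype.card_fin, ← pow_mul, mul_comm]
    have h2 : (1 : ℝ) ≤ ((fac d q a s : ℕ) : ℝ) := by exact_mod_cast fac_pos d q a ha1 hq1' s
    calc ‖∏ j, (a j : ℂ) ^ d‖ * ‖aeval (fun j => Complex.Gamma (a j / q)) P‖
        ≤ (q : ℝ) ^ (n * d) * ((q : ℝ) ^ (-(B + n * d)) * ‖P.coeff s‖) :=
          mul_le_mul h1 hlt.le (norm_nonneg _) (by positivity)
      _ = (q : ℝ) ^ (-B) * ‖P.coeff s‖ := by
          rw [← mul_assoc]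
          congr 1
          rw [← Real.rpow_natCast, ← Real.rpow_add hqp]
          congr 1
          push_cast
          ring
      _ ≤ (q : ℝ) ^ (-B) * (‖P.coeff s‖ * ((fac d q a s : ℕ) : ℝ)) := by
          refine mul_le_mul_of_nonneg_left ?_ (by positivity)
          exact le_mul_of_one_le_right (norm_nonneg _) h2

/-- the local independence of `t` and `Γ(1 + t)` -/
lemma locInd_gamma (t0 : ℂ) (ht0 : -1 < t0.re) :
    Pool.Agent.Y124.LocInd (fun (_ : Unit) (t : ℂ) => Complex.Gamma (1 + t)) t0 := by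
  refine Pool.Agent.Y549.GM.locInd {t : ℂ | -1 < t.re} (isOpen_lt continuous_const Complex.continuous_re)
    (convex_halfSpace_re_gt (-1)).isPreconnected (fun (_ : Unit) (t : ℂ) => 1 + t) ?_ ?_ ?_ ?_ t0 ht0 ?_
  · intro _
    exact (differentiable_const _).add differentiable_id |>.differentiableOn
  · intro _
    refine ⟨Polynomial.X - Polynomial.C (1 + Polynomial.X), Polynomial.X_sub_C_ne_zero _, fun t _ => ?_⟩
    simp [Polynomial.evalEval]
  · intro _ v h
    have h1 := h 0 (by simp)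
    have h2 := h 1 (by simp)
    rw [← h1] at h2
    norm_num at h2
  · intro i k hik
    exact absurd (Subsingleton.elim i k) hik
  · intro _ m h
    have h1 := congrArg Complex.re h
    simp at h1
    have h2 : (0 : ℝ) ≤ m := Nat.cast_nonneg m
    have h3 : -1 < t0.re := ht0
    linarith

/-- the points `a / q` have small height -/
lemma ht_le {q : ℕ} (hq1 : 1 ≤ q) {F : Type} [Field F] [NumberField F] {a : ℕ} (ha : a < q) :
    Y120.HtLe F q (((a : ℕ) : F) / ((q : ℕ) : F)) := by
  refine ⟨((a : ℕ) : 𝓞 F), ((q : ℕ) : 𝓞 F), ?_, ?_, ?_, ?_⟩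
  · have : q ≠ 0 := by omega
    exact_mod_cast this
  · refine Y120.house_le F (Nat.cast_nonneg _) fun φ => ?_
    have e1 : ((((a : ℕ) : 𝓞 F)) : F) = ((a : ℕ) : F) := by push_cast; rfl
    rw [e1, map_natCast, Complex.norm_natCast]
    exact_mod_cast (by omega : a ≤ q)
  · refine Y120.house_le F (Nat.cast_nonneg _) fun φ => ?_
    have e2 : ((((q : ℕ) : 𝓞 F)) : F) = ((q : ℕ) : F) := by push_cast; rfl
    rw [e2, map_natCast, Complex.norm_natCast]
  · push_cast
    rfl

lemma MgR_eq {α : Type} {n : ℕ} (X : Fin n → Finset α) :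
    Pool.Agent.Y124.MgR X = ∑ j, ∏ i ∈ Finset.univ.erase j, ((X i).card : ℝ) := by
  unfold Pool.Agent.Y124.MgR
  refine Finset.sum_congr rfl fun j _ => ?_
  rw [← Finset.mul_prod_erase Finset.univ _ (Finset.mem_univ j), if_pos rfl, one_mul]
  exact Finset.prod_congr rfl fun i hi => if_neg (Finset.ne_of_mem_erase hi)

theorem result (n m g d : ℕ) (A δ : ℝ) (hδ : 0 < δ) :
    ∃ (B : ℝ) (C : ℕ) (q₀ : ℝ), ∀ q : ℕ, q₀ ≤ q → ∀ (F : Type) [Field F] [NumberField F], Module.finrank ℚ F ≤ m →
      ∀ (ι : F →+* ℂ) (ξ : Fin g → ℂ) (Y : Fin n → Finset ℕ), (∀ j, Y j ⊆ Residues q) →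
        (∀ j, ∀ a ∈ Y j, ∀ b ∈ Y j, |(a : ℝ) - b| ≤ (q : ℝ) ^ (1 - δ)) →
        (({a : Fin n → ℕ | (∀ j, a j ∈ Y j) ∧ ¬ Good q F ι ξ d A B a}.ncard : ℝ) ≤
          C * ∑ j, ∏ i ∈ Finset.univ.erase j, ((Y i).card : ℝ)) ∧
        ((∀ j, C < (Y j).card) → ∃ a : Fin n → ℕ, (∀ j, a j ∈ Y j) ∧ Good q F ι ξ d A B a) := by
  classical
  set L : Set ℂ := (fun x : ℝ => (x : ℂ)) '' Set.Icc 0 (1 / 2) with hL
  have hLc : IsCompact L := isCompact_Icc.image Complex.continuous_ofReal
  have hLre : ∀ t ∈ L, -1 < t.re := by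
    rintro _ ⟨x, hx, rfl⟩
    change -1 < ((x : ℝ) : ℂ).re
    rw [Complex.ofReal_re]
    linarith [hx.1]
  set A' : ℝ := |A| + n * d with hA'
  obtain ⟨B, C, T₀, hB, hC, hT₀, H⟩ := mainL m n (g + (d + 1)) d
    (fun (_ : Fin n) (_ : Unit) (t : ℂ) => Complex.Gamma (1 + t)) L hLc
    (fun _ _ t ht => by
      have h1 : AnalyticAt ℂ Complex.Gamma (1 + t) := Pool.Agent.Y771.RP.Gamma_analyticAt fun k hk => by
        have h2 := congrArg Complex.re hk
        simp at h2
        have h3 := hLre t ht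
        have h4 : (0 : ℝ) ≤ k := Nat.cast_nonneg k
        linarith
      exact AnalyticAt.fun_comp h1 (analyticAt_const.add analyticAt_id))
    (fun _ t ht => locInd_gamma t (hLre t ht)) A' δ hδ
  refine ⟨B + n * d, (n + 1) * ⌈C⌉₊, max T₀ 2, fun q hq F _ _ hF ι ξ Y hY hYd => ?_⟩
  have hqT₀ : T₀ ≤ q := (le_max_left _ _).trans hq
  have hq2 : (2 : ℝ) ≤ q := (le_max_right _ _).trans hq
  have hq1 : (1 : ℝ) ≤ q := by linarith
  have hqp : (0 : ℝ) < q := by linarith
  have hq1' : 1 ≤ q := by exact_mod_cast hq1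
  have hqn : q ≠ 0 := by omega
  have hqc : (q : ℂ) ≠ 0 := by exact_mod_cast hqn
  have hres : ∀ j, ∀ a ∈ Y j, 1 ≤ a ∧ 2 * a < q := fun j a ha => by
    have := hY j ha
    rw [Residues, Finset.mem_filter] at this
    exact ⟨this.2.1, this.2.2.1⟩
  set u : ℕ → F := fun a => ((a : ℕ) : F) / ((q : ℕ) : F) with hu
  have hqF : ((q : ℕ) : F) ≠ 0 := by exact_mod_cast hqn
  have huinj : Function.Injective u := by
    intro a b hab
    simp only [hu] at hab
    rw [div_left_inj' hqF] at hab
    exact_mod_cast hab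
  have hιu : ∀ a, ι (u a) = (a : ℂ) / q := by
    intro a
    simp only [hu, map_div₀, map_natCast]
  -- the centres
  have hL0 : (0 : ℂ) ∈ L := ⟨0, ⟨le_rfl, by norm_num⟩, by simp⟩
  have hτ : ∀ j, ∃ τ : L, ∀ a ∈ Y j, ‖(a : ℂ) / q - (τ : ℂ)‖ ≤ (q : ℝ) ^ (-δ) := by
    intro j
    rcases (Y j).eq_empty_or_nonempty with h | ⟨b, hb⟩
    · refine ⟨⟨0, hL0⟩, fun a ha => ?_⟩
      rw [h] at ha
      exact absurd ha (Finset.notMem_empty a)
    · refine ⟨⟨(b : ℂ) / q, ⟨(b : ℝ) / q, ⟨by positivity, ?_⟩, by push_cast; rfl⟩⟩, fun a ha => ?_⟩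
      · rw [div_le_div_iff₀ hqp (by norm_num)]
        have : (2 * b : ℝ) < q := by exact_mod_cast (hres j b hb).2
        linarith
      · change ‖(a : ℂ) / q - (b : ℂ) / q‖ ≤ _
        have h1 : (a : ℂ) / q - (b : ℂ) / q = ((((a : ℝ) - b) / q : ℝ) : ℂ) := by
          push_cast
          ring
        rw [h1, Complex.norm_real, Real.norm_eq_abs, abs_div, abs_of_pos hqp, div_le_iff₀ hqp]
        refine (hYd j a ha b hb).trans (le_of_eq ?_)
        have h2 : (q : ℝ) ^ (-δ) * q = (q : ℝ) ^ (-δ) * (q : ℝ) ^ (1 : ℝ) := by rw [Real.rpow_one]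
        rw [h2, ← Real.rpow_add hqp]
        congr 1
        ring
  choose τ hτ' using hτ
  set Bad : Finset (Fin n → ℕ) := (Fintype.piFinset Y).filter fun a => ¬ Good q F ι ξ d A (B + n * d) a with hBad
  have hBadS : {a : Fin n → ℕ | (∀ j, a j ∈ Y j) ∧ ¬ Good q F ι ξ d A (B + n * d) a} = (Bad : Set (Fin n → ℕ)) := by
    ext a
    simp only [hBad, Finset.coe_filter, Fintype.mem_piFinset, Set.mem_ofPred_eq]
  have hcount : (Bad.card : ℝ) ≤ C * Pool.Agent.Y124.MgR Y := by
    have h1 := H F hF ι (Fin.append ξ fun k : Fin (d + 1) => (Real.pi : ℂ) ^ (k : ℕ)) q hqT₀ τ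
      (fun j => (Y j).image u) (by
        intro j x hx
        obtain ⟨a, ha, rfl⟩ := Finset.mem_image.1 hx
        refine ⟨?_, ht_le hq1' (by have := (hres j a ha).2; omega)⟩
        rw [hιu]
        exact hτ' j a ha) (Bad.image fun a j => u (a j)) (by
        intro t ht
        obtain ⟨a, ha, rfl⟩ := Finset.mem_image.1 ht
        rw [hBad, Finset.mem_filter, Fintype.mem_piFinset] at ha
        obtain ⟨haY, hab⟩ := ha
        refine ⟨fun j => Finset.mem_image_of_mem _ (haY j), ?_⟩
        have hbad : ∃ P : MvPolynomial (Fin n) ℂ, Admissible F ι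
            (Fin.append ξ fun k : Fin (d + 1) => (Real.pi : ℂ) ^ (k : ℕ)) d ((q : ℝ) ^ A) P ∧ ∃ s,
            ‖aeval (fun j => Complex.Gamma (a j / q)) P‖ < (q : ℝ) ^ (-(B + n * d)) * ‖P.coeff s‖ := by
          by_contra hcon
          apply hab
          refine good_of_key q hq1' F ι ξ d A _ a fun P hP s => ?_
          by_contra hlt
          exact hcon ⟨P, hP, s, not_le.1 hlt⟩
        obtain ⟨P, hP, s, hlt⟩ := hbad
        obtain ⟨R, hR1, hR2, s₀, hs₀, hs⟩ := transfer q hq1' F ι _ d A A' B q le_rfl le_rfl a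
          (fun j => ⟨(hres j _ (haY j)).1, by have := (hres j _ (haY j)).2; omega⟩) P hP s hlt
        refine ⟨rename (fun j : Fin n => (j, ())) R, ?_, ?_, emb s₀, ?_, ?_⟩
        · rintro ⟨j, ⟨⟩⟩
          rw [degreeOf_rename_of_injective (p := R) (inj_pu n) j]
          exact hR1 j
        · intro s'
          obtain ⟨s, rfl⟩ := emb_surj s'
          rw [emb, coeff_rename_mapDomain _ (inj_pu n)]
          exact hR2 s
        · rw [emb, coeff_rename_mapDomain _ (inj_pu n)]
          exact hs₀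
        · rw [emb, coeff_rename_mapDomain _ (inj_pu n), aeval_rename]
          refine le_trans (le_of_eq ?_) hs
          congr 2
          refine congrArg _ ?_
          funext j
          change Complex.Gamma (1 + ι (u (a j))) = _
          rw [hιu])
    rw [Finset.card_image_of_injective _ (fun a b hab => funext fun j => huinj (congrFun hab j))] at h1
    refine h1.trans (le_of_eq ?_)
    congr 1
    unfold Pool.Agent.Y124.MgR
    refine Finset.sum_congr rfl fun j _ => Finset.prod_congr rfl fun i _ => ?_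
    rw [Finset.card_image_of_injective _ huinj]
  have hM0 : 0 ≤ Pool.Agent.Y124.MgR Y :=
    Finset.sum_nonneg fun j _ => Finset.prod_nonneg fun i _ => by split_ifs <;> positivity
  have hCle : C ≤ (((n + 1) * ⌈C⌉₊ : ℕ) : ℝ) := by
    have h1 : C ≤ ⌈C⌉₊ := Nat.le_ceil C
    have h2 : (0 : ℝ) ≤ ⌈C⌉₊ := Nat.cast_nonneg _
    push_cast
    nlinarith [Nat.cast_nonneg (α := ℝ) n]
  refine ⟨?_, fun hYc => ?_⟩
  · rw [hBadS, Set.ncard_coe_finset, ← MgR_eq]
    exact hcount.trans (mul_le_mul_of_nonneg_right hCle hM0)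
  · by_contra hcon
    push Not at hcon
    have h1 : Bad = Fintype.piFinset Y := by
      rw [hBad, Finset.filter_true_of_mem]
      intro a ha
      exact hcon a (Fintype.mem_piFinset.1 ha)
    rw [h1, Fintype.card_piFinset, MgR_eq] at hcount
    push_cast at hcount
    have hpos : ∀ j, (0 : ℝ) < (Y j).card := fun j => by
      have := hYc j
      exact_mod_cast (by omega : 0 < (Y j).card)
    have hprod : (0 : ℝ) < ∏ j, ((Y j).card : ℝ) := Finset.prod_pos fun j _ => hpos j
    have h2 : ∀ j, ((n + 1 : ℕ) : ℝ) * (C * ∏ i ∈ Finset.univ.erase j, ((Y i).card : ℝ)) ≤ ∏ j, ((Y j).card : ℝ) := by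
      intro j
      rw [← Finset.mul_prod_erase Finset.univ _ (Finset.mem_univ j), ← mul_assoc]
      refine mul_le_mul_of_nonneg_right ?_ (Finset.prod_nonneg fun _ _ => Nat.cast_nonneg _)
      have h3 : (((n + 1) * ⌈C⌉₊ : ℕ) : ℝ) ≤ (Y j).card := by exact_mod_cast (hYc j).le
      have h4 : C ≤ ⌈C⌉₊ := Nat.le_ceil C
      have h5 : (0 : ℝ) ≤ ((n + 1 : ℕ) : ℝ) := Nat.cast_nonneg _
      calc ((n + 1 : ℕ) : ℝ) * C ≤ ((n + 1 : ℕ) : ℝ) * ⌈C⌉₊ := mul_le_mul_of_nonneg_left h4 h5
        _ = (((n + 1) * ⌈C⌉₊ : ℕ) : ℝ) := by push_cast; ring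
        _ ≤ _ := h3
    have h3 : ((n + 1 : ℕ) : ℝ) * (C * ∑ j, ∏ i ∈ Finset.univ.erase j, ((Y i).card : ℝ)) ≤
        n * ∏ j, ((Y j).card : ℝ) := by
      rw [Finset.mul_sum, Finset.mul_sum]
      refine (Finset.sum_le_sum fun j _ => h2 j).trans (le_of_eq ?_)
      rw [Finset.sum_const, Finset.card_univ, Fintype.card_fin, nsmul_eq_mul]
    have h4 : ((n + 1 : ℕ) : ℝ) * ∏ j, ((Y j).card : ℝ) ≤ n * ∏ j, ((Y j).card : ℝ) :=
      (mul_le_mul_of_nonneg_left hcount (Nat.cast_nonneg _)).trans h3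
    push_cast at h4
    nlinarith

end Pool.Agent.Results.MP_274814_nt.ShortIntervals
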